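import Pool.Agent.N442.LP.Loc

/-!
# From blow-ups to patterns
-/

set_option autoImplicit false

open Finset
open scoped Classical

namespace Pool.Agent.N442.LP

theorem cap_of_real {k t n m : ℕ} (hm : 1 ≤ m) {G : Finset (Finset (Fin n))} (hK : KFree m G)
    {P : Fin k → Fin k → Fin k → Prop} (hP : IsPat P) {y : Fin k → Fin (t + 2) → Fin n}
    (hR : Real G P y) (hI : Inj y) (A S : Finset (Fin k)) (hAS : A ⊆ S)
    (hX : ∀ a ∈ S, ∀ b ∈ S, ∀ c ∈ S, a ≠ b → b ≠ c → a ≠ c → P a b c)
    (hA : ∀ u ∈ A, ∀ v ∈ S, u ≠ v → P u u v) : A.card + S.card ≤ m - 1 := by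
  by_contra hcon
  set W : Finset (Fin k × Fin (t + 2)) := S.image (fun a => (a, 0)) ∪ A.image (fun a => (a, 1))
    with hW
  have hWc : W.card = S.card + A.card := by
    rw [hW, card_union_of_disjoint, card_image_of_injective, card_image_of_injective]
    · intro a b h; exact congrArg Prod.fst h
    · intro a b h; exact congrArg Prod.fst h
    · rw [disjoint_left]
      intro x hx hx'
      obtain ⟨a, -, rfl⟩ := mem_image.mp hx
      obtain ⟨b, -, hb⟩ := mem_image.mp hx'
      have := congrArg Prod.snd hb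
      simp at this
  have hWm : ∀ x ∈ W, x.1 ∈ S ∧ (x.2 = 0 ∨ (x.2 = 1 ∧ x.1 ∈ A)) := by
    intro x hx
    rw [hW, mem_union] at hx
    rcases hx with hx | hx
    · obtain ⟨a, ha, rfl⟩ := mem_image.mp hx
      exact ⟨ha, Or.inl rfl⟩
    · obtain ⟨a, ha, rfl⟩ := mem_image.mp hx
      exact ⟨hAS ha, Or.inr ⟨rfl, ha⟩⟩
  obtain ⟨W', hW', hW'c⟩ := exists_subset_card_eq (s := W) (n := m) (by omega)
  have hinj : Function.Injective (fun x : Fin k × Fin (t + 2) => y x.1 x.2) := by
    intro x x' h
    have := hI _ _ _ _ h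
    exact Prod.ext this.1 this.2
  obtain ⟨e, he, heG⟩ := hK (W'.image (fun x => y x.1 x.2))
    (by rw [card_image_of_injective _ hinj, hW'c])
  rw [mem_powersetCard] at he
  obtain ⟨u, v, w, huv, huw, hvw, rfl⟩ := card_eq_three.mp he.2
  have hu := he.1 (show u ∈ ({u, v, w} : Finset (Fin n)) by simp)
  have hv := he.1 (show v ∈ ({u, v, w} : Finset (Fin n)) by simp)
  have hw := he.1 (show w ∈ ({u, v, w} : Finset (Fin n)) by simp)
  obtain ⟨⟨a, p⟩, ha, rfl⟩ := mem_image.mp hu
  obtain ⟨⟨b, q⟩, hb, rfl⟩ := mem_image.mp hv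
  obtain ⟨⟨c, r⟩, hc, rfl⟩ := mem_image.mp hw
  have n1 : (a, p) ≠ (b, q) := fun h => huv (by rw [h])
  have n2 : (b, q) ≠ (c, r) := fun h => hvw (by rw [h])
  have n3 : (a, p) ≠ (c, r) := fun h => huw (by rw [h])
  apply heG
  rw [hR a b c p q r n1 n2 n3]
  have ma := hWm _ (hW' ha)
  have mb := hWm _ (hW' hb)
  have mc := hWm _ (hW' hc)
  simp only at ma mb mc
  have two : ∀ {x : Fin k} {p q : Fin (t + 2)}, (p = 0 ∨ (p = 1 ∧ x ∈ A)) →
      (q = 0 ∨ (q = 1 ∧ x ∈ A)) → p ≠ q → x ∈ A := by
    intro x p q h1 h2 h3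
    rcases h1 with h1 | h1
    · rcases h2 with h2 | h2
      · exact absurd (h1.trans h2.symm) h3
      · exact h2.2
    · exact h1.2
  by_cases hab : a = b
  · subst hab
    have hpq : p ≠ q := fun h => n1 (by rw [h])
    have haA : a ∈ A := two ma.2 mb.2 hpq
    by_cases hac : a = c
    · subst hac
      exfalso
      have hqr : q ≠ r := fun h => n2 (by rw [h])
      have hpr : p ≠ r := fun h => n3 (by rw [h])
      rcases ma.2 with h1 | h1 <;> rcases mb.2 with h2 | h2 <;> rcases mc.2 with h3 | h3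
      · exact hpq (h1.trans h2.symm)
      · exact hpq (h1.trans h2.symm)
      · exact hpr (h1.trans h3.symm)
      · exact hqr (h2.1.trans h3.1.symm)
      · exact hqr (h2.trans h3.symm)
      · exact hpr (h1.1.trans h3.1.symm)
      · exact hpq (h1.1.trans h2.1.symm)
      · exact hpq (h1.1.trans h2.1.symm)
    · exact hA a haA c mc.1 hac
  · by_cases hbc : b = c
    · subst hbc
      have hqr : q ≠ r := fun h => n2 (by rw [h])
      have hbA : b ∈ A := two mb.2 mc.2 hqr
      exact hP.s12 (hP.s23 (hA b hbA a ma.1 (Ne.symm hab)))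
    · by_cases hac : a = c
      · subst hac
        have hpr : p ≠ r := fun h => n3 (by rw [h])
        have haA : a ∈ A := two ma.2 mc.2 hpr
        exact hP.s23 (hA a haA b mb.1 hab)
      · exact hX a ma.1 b mb.1 c mc.1 hab hbc hac

/-- injective maps which induce the pattern `X` -/
noncomputable def SX {k n : ℕ} (G : Finset (Finset (Fin n))) (X : Finset (Finset (Fin k))) :
    Finset (Fin k → Fin n) :=
  univ.filter fun φ => Function.Injective φ ∧ ∀ a b c, a ≠ b → b ≠ c → a ≠ c →
    (({φ a, φ b, φ c} : Finset (Fin n)) ∈ G ↔ ({a, b, c} : Finset (Fin k)) ∈ X)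

/-- the pattern with transversal triples `X` and arcs `s` -/
def mkP {k : ℕ} (X : Finset (Finset (Fin k))) (s : Fin k → Fin k → Prop) (a b c : Fin k) : Prop :=
  if a = b then (if a = c then False else s a c) else
    if a = c then s a b else if b = c then s b a else ({a, b, c} : Finset (Fin k)) ∈ X

theorem mkP_isPat {k : ℕ} (X : Finset (Finset (Fin k))) (s : Fin k → Fin k → Prop) :
    IsPat (mkP X s) := by
  refine ⟨?_, ?_, ?_⟩
  · intro a b c h
    unfold mkP at h ⊢
    by_cases hab : a = b
    · subst hab; exact h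
    · have hba : b ≠ a := fun e => hab e.symm
      by_cases hac : a = c
      · subst hac
        simp only [if_neg hab, if_true, if_neg hba] at h ⊢
        exact h
      · by_cases hbc : b = c
        · subst hbc
          simp only [if_neg hab, if_true, if_neg hba] at h ⊢
          exact h
        · simp only [if_neg hab, if_neg hac, if_neg hbc, if_neg hba] at h ⊢
          rw [Finset.insert_comm]
          exact h
  · intro a b c h
    unfold mkP at h ⊢
    by_cases hab : a = b
    · subst hab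
      by_cases hac : a = c
      · subst hac; exact h
      · have hca : c ≠ a := fun e => hac e.symm
        simp only [if_neg hac, if_true] at h ⊢
        exact h
    · have hba : b ≠ a := fun e => hab e.symm
      by_cases hac : a = c
      · subst hac
        simp only [if_neg hab, if_true] at h ⊢
        exact h
      · by_cases hbc : b = c
        · subst hbc
          exact h
        · have hcb : c ≠ b := fun e => hbc e.symm
          simp only [if_neg hab, if_neg hac, if_neg hbc, if_neg hcb] at h ⊢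
          rw [Finset.pair_comm]
          exact h
  · intro a h
    unfold mkP at h
    simp at h

/-- **Patterns in blow-ups.** -/
theorem loc (m k s : ℕ) : ∃ T : ℕ, s + 2 ≤ T ∧ ∀ (n : ℕ) (G : Finset (Finset (Fin n))), KFree m G →
    ∀ (X : Finset (Finset (Fin k))) (y : Fin k → Fin T → Fin n),
    (∀ f : Fin k → Fin T, (fun i => y i (f i)) ∈ SX G X) → (∀ i, Function.Injective (y i)) →
    ∃ (P : Fin k → Fin k → Fin k → Prop) (z : Fin k → Fin (s + 2) → Fin T), IsPat P ∧
      (∀ i, Function.Injective (z i)) ∧ Inj (fun i a => y i (z i a)) ∧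
      Real G P (fun i a => y i (z i a)) ∧
      ∀ a b c, a ≠ b → b ≠ c → a ≠ c → (P a b c ↔ ({a, b, c} : Finset (Fin k)) ∈ X) := by
  obtain ⟨T, hT, h⟩ := hom_blow m k (s + 2)
  refine ⟨T, hT, fun n G hK X y hsel hinj => ?_⟩
  have hI : Inj y := by
    intro a p b q hab
    by_cases h1 : a = b
    · subst h1
      exact ⟨rfl, hinj a hab⟩
    · exfalso
      have h2 := (mem_filter.mp (hsel (fun i => if i = a then p else q))).2.1
      have h3 := @h2 a b (by simp [hab, Ne.symm h1])
      exact h1 h3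
  obtain ⟨z, hz, hz1, hz2⟩ := h n G hK y hI
  have h2 : ∀ i j : Fin k, ∃ s' : Prop, i ≠ j → ∀ a b d, a ≠ b →
      (({y i (z i a), y i (z i b), y j (z j d)} : Finset (Fin n)) ∈ G ↔ s') := by
    intro i j
    by_cases hij : i = j
    · exact ⟨True, fun h => absurd hij h⟩
    · obtain ⟨s', hs'⟩ := hz2 i j hij
      exact ⟨s', fun _ => hs'⟩
  choose ar har using h2
  refine ⟨mkP X ar, z, mkP_isPat X ar, hz, ?_, ?_, ?_⟩
  · intro a p b q hab
    have := hI _ _ _ _ hab
    obtain ⟨h3, h4⟩ := this
    subst h3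
    exact ⟨rfl, hz a h4⟩
  · intro a b c p q r n1 n2 n3
    simp only
    unfold mkP
    by_cases hab : a = b
    · subst hab
      have hpq : p ≠ q := fun h => n1 (by rw [h])
      by_cases hac : a = c
      · subst hac
        have hqr : q ≠ r := fun h => n2 (by rw [h])
        have hpr : p ≠ r := fun h => n3 (by rw [h])
        simp only [if_true, iff_false]
        exact hz1 a p q r hpq hqr hpr
      · simp only [if_true, if_neg hac]
        exact har a c hac p q r hpq
    · by_cases hac : a = c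
      · subst hac
        have hpr : p ≠ r := fun h => n3 (by rw [h])
        simp only [if_true, if_neg hab]
        rw [Finset.pair_comm]
        exact har a b hab p r q hpr
      · by_cases hbc : b = c
        · subst hbc
          have hqr : q ≠ r := fun h => n2 (by rw [h])
          simp only [if_true, if_neg hab]
          rw [Finset.insert_comm, Finset.pair_comm]
          exact har b a (Ne.symm hab) q r p hqr
        · simp only [if_neg hab, if_neg hac, if_neg hbc]
          have h3 := (mem_filter.mp (hsel (fun i => if i = a then z a p else if i = b then z b q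
            else z c r))).2.2 a b c hab hbc hac
          have hba : b ≠ a := Ne.symm hab
          have hca : c ≠ a := Ne.symm hac
          have hcb : c ≠ b := Ne.symm hbc
          simpa [hba, hca, hcb] using h3
  · intro a b c hab hbc hac
    unfold mkP
    simp only [if_neg hab, if_neg hac, if_neg hbc]

/-- ordered triples in `X` -/
noncomputable def QT {n : ℕ} (G : Finset (Finset (Fin n))) : Finset (Fin 3 → Fin n) :=
  univ.filter fun f => Function.Injective f ∧ ({f 0, f 1, f 2} : Finset (Fin n)) ∈ G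

theorem T_uniform {k : ℕ} {P : Fin k → Fin k → Fin k → Prop} {X : Finset (Finset (Fin k))}
    (hX : ∀ a b c, a ≠ b → b ≠ c → a ≠ c → (P a b c ↔ ({a, b, c} : Finset (Fin k)) ∈ X)) :
    ((QT X).card : ℝ) ≤ (k : ℝ) ^ 3 * T (ind P) (fun _ => 1 / (k : ℝ)) (fun _ => 1 / (k : ℝ))
      (fun _ => 1 / (k : ℝ)) := by
  rcases Nat.eq_zero_or_pos k with hk | hk
  · subst hk
    have : QT X = ∅ := by
      ext f
      simp only [notMem_empty, iff_false]
      exact fun _ => (f 0).elim0
    simp [this]
  have hk' : (k : ℝ) ≠ 0 := by positivity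
  have e1 : (k : ℝ) ^ 3 * T (ind P) (fun _ => 1 / (k : ℝ)) (fun _ => 1 / (k : ℝ))
      (fun _ => 1 / (k : ℝ)) = ∑ a, ∑ b, ∑ c, ind P a b c := by
    unfold T
    simp only [mul_sum]
    refine sum_congr rfl fun a _ => sum_congr rfl fun b _ => sum_congr rfl fun c _ => ?_
    field_simp
  rw [e1]
  have e2 : ∑ a, ∑ b, ∑ c, ind P a b c =
      (((univ : Finset (Fin k × Fin k × Fin k)).filter fun p => P p.1 p.2.1 p.2.2).card : ℝ) := by
    rw [card_filter]
    push_cast
    rw [Fintype.sum_prod_type]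
    refine sum_congr rfl fun a _ => ?_
    rw [Fintype.sum_prod_type]
    refine sum_congr rfl fun b _ => sum_congr rfl fun c _ => ?_
    unfold ind
    simp
  rw [e2]
  have e3 : (QT X).card ≤
      ((univ : Finset (Fin k × Fin k × Fin k)).filter fun p => P p.1 p.2.1 p.2.2).card := by
    refine card_le_card_of_injOn (fun f => (f 0, f 1, f 2)) ?_ ?_
    · intro f hf
      have h := (mem_filter.mp (mem_coe.mp hf)).2
      refine mem_coe.mpr (mem_filter.mpr ⟨mem_univ _, ?_⟩)
      have n1 : f 0 ≠ f 1 := fun e => absurd (h.1 e) (by decide)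
      have n2 : f 1 ≠ f 2 := fun e => absurd (h.1 e) (by decide)
      have n3 : f 0 ≠ f 2 := fun e => absurd (h.1 e) (by decide)
      exact (hX _ _ _ n1 n2 n3).mpr h.2
    · intro f _ g _ h
      simp only [Prod.mk.injEq] at h
      funext i
      fin_cases i
      · exact h.1
      · exact h.2.1
      · exact h.2.2
  exact_mod_cast e3

theorem smp_uniform {k : ℕ} (hk : 0 < k) : Smp (fun _ : Fin k => 1 / (k : ℝ)) := by
  refine ⟨fun _ => by positivity, ?_⟩
  rw [sum_const, card_univ, Fintype.card_fin, nsmul_eq_mul]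
  have : (k : ℝ) ≠ 0 := by positivity
  field_simp

/-- the density bound for `L` -/
noncomputable def rho (L : ℕ) : ℝ := 1 - 4 / (L : ℝ) ^ 2

theorem rho_le {k L : ℕ} {τ t : ℝ} (hL : 0 < L) (h1 : τ ≤ (k : ℝ) ^ 3 * t)
    (h2 : 4 ≤ (L : ℝ) ^ 2 * (1 - t)) : τ ≤ rho L * (k : ℝ) ^ 3 := by
  have hL' : (0 : ℝ) < (L : ℝ) ^ 2 := by positivity
  have h3 : t ≤ rho L := by
    unfold rho
    rw [le_sub_iff_add_le, ← le_sub_iff_add_le', div_le_iff₀ hL']
    linarith
  have h4 : (0 : ℝ) ≤ (k : ℝ) ^ 3 := by positivity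
  nlinarith [mul_le_mul_of_nonneg_left h3 h4]

/-- **Local theorem, four graphs.** -/
theorem loc2 {m : ℕ} (hm : 2 ≤ m) (k s : ℕ) (hk : 0 < k) : ∃ T : ℕ, 0 < T ∧
    ∀ (n : ℕ) (G : Finset (Finset (Fin n))), KFree m G →
    ∀ (X : Finset (Finset (Fin k))) (y : Fin k → Fin T → Fin n),
    (∀ f : Fin k → Fin T, (fun i => y i (f i)) ∈ SX G X) → (∀ i, Function.Injective (y i)) →
    rho (m - 1) * (k : ℝ) ^ 3 < ((QT X).card : ℝ) →
    (HasPos (gA s) G y ∨ HasPos (gB s) G y) ∨ (HasPos (gC s) G y ∨ HasPos (gD s) G y) := by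
  obtain ⟨T', hT, h⟩ := loc m k s
  refine ⟨T', by omega, fun n G hK X y hsel hinj hX => ?_⟩
  obtain ⟨P, z, hP, hz, hI, hR, hPX⟩ := h n G hK X y hsel hinj
  by_contra hno
  push Not at hno
  obtain ⟨⟨hA, hB⟩, hC, hD⟩ := hno
  have hA' : ¬ HasPos (gA s) G (fun i a => y i (z i a)) := fun h => hA (h.comp hz)
  have hB' : ¬ HasPos (gB s) G (fun i a => y i (z i a)) := fun h => hB (h.comp hz)
  have hC' : ¬ HasPos (gC s) G (fun i a => y i (z i a)) := fun h => hC (h.comp hz)
  have hD' : ¬ HasPos (gD s) G (fun i a => y i (z i a)) := fun h => hD (h.comp hz)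
  haveI : Nonempty (Fin k) := ⟨⟨0, hk⟩⟩
  have rule : ∀ i j c, i ≠ j → Far P i j → P i j c → P i i c := by
    intro i j c hij hf hc
    by_contra hn
    have hic : i ≠ c := by
      rintro rfl
      exact hf.1 (hP.s23 hc)
    have hjc : j ≠ c := by
      rintro rfl
      exact hf.2 (hP.s23 (hP.s12 hc))
    by_cases hx : P c c i
    · exact hD' (posD hP hR hI hij hic hjc hf.1 hf.2 hc hn hx)
    · exact hC' (posC hP hR hI hij hic hjc hf.1 hf.2 hc hn hx)
  have hb := bound2 hP (m - 1) (fun A S hAS h1 h2 => cap_of_real (by omega) hK hP hR hI A S hAS h1 h2)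
    (fun i j c hij hf hc => ⟨rule i j c hij hf hc,
      rule j i c hij.symm ⟨hf.2, hf.1⟩ (hP.s12 hc)⟩)
    (by
      intro a b c hab hbc hac hn
      by_contra hfar
      unfold Far at hfar
      push Not at hfar
      obtain ⟨f1, f2, f3⟩ := hfar
      -- a vertex with two incoming arcs gives `K_s ∪ K_s`
      have u1 : ¬ (P b b a ∧ P c c a) := fun h' => hA' (posA hP hR hI hab hac hbc h'.1 h'.2 hn)
      have u2 : ¬ (P a a b ∧ P c c b) := fun h' => hA' (posA hP hR hI hab.symm hbc hac h'.1 h'.2
        (fun e => hn (hP.s12 e)))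
      have u3 : ¬ (P a a c ∧ P b b c) := fun h' => hA' (posA hP hR hI hac.symm hbc.symm hab h'.1 h'.2
        (fun e => hn (hP.s23 (hP.s12 e))))
      by_cases p1 : P a a b
      · have q1 : ¬ P c c b := fun e => u2 ⟨p1, e⟩
        have q2 : P b b c := by
          by_contra e
          exact q1 (f2 e)
        have q3 : ¬ P a a c := fun e => u3 ⟨e, q2⟩
        have q4 : P c c a := f3 q3
        have q5 : ¬ P b b a := fun e => u1 ⟨e, q4⟩
        exact hB' (posB hP hR hI hab hac hbc p1 q5 q4 q3 hn)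
      · have q1 : P b b a := f1 p1
        have q2 : ¬ P c c a := fun e => u1 ⟨q1, e⟩
        have q3 : P a a c := by
          by_contra e
          exact q2 (f3 e)
        have q4 : ¬ P b b c := fun e => u3 ⟨q3, e⟩
        have q5 : P c c b := f2 q4
        -- the cycle a → c → b → a
        exact hB' (posB hP hR hI hac hab hbc.symm q3 q2 q1 p1 (fun e => hn (hP.s23 e))))
    (fun _ => 1 / (k : ℝ)) (smp_uniform hk)
  exact absurd hX (not_lt.mpr (rho_le (by omega) (T_uniform hPX) hb))

theorem nat_half {m : ℕ} (hm : 3 ≤ m) : 0 < 2 * ((m - 1) / 2) := by omega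

/-- **Local theorem, `K_{s,s}`.** -/
theorem loc1 {m : ℕ} (hm : 3 ≤ m) (k s : ℕ) (hk : 0 < k) : ∃ T : ℕ, 0 < T ∧
    ∀ (n : ℕ) (G : Finset (Finset (Fin n))), KFree m G →
    ∀ (X : Finset (Finset (Fin k))) (y : Fin k → Fin T → Fin n),
    (∀ f : Fin k → Fin T, (fun i => y i (f i)) ∈ SX G X) → (∀ i, Function.Injective (y i)) →
    rho (2 * ((m - 1) / 2)) * (k : ℝ) ^ 3 < ((QT X).card : ℝ) →
    HasPos (completeBipartiteGraph (Fin s) (Fin s)) G y ∧ HasPos (gE s) G y := by
  obtain ⟨T', hT, h⟩ := loc m k s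
  refine ⟨T', by omega, fun n G hK X y hsel hinj hX => ?_⟩
  obtain ⟨P, z, hP, hz, hI, hR, hPX⟩ := h n G hK X y hsel hinj
  haveI : Nonempty (Fin k) := ⟨⟨0, hk⟩⟩
  have hcap := fun A S hAS h1 h2 => cap_of_real (by omega) hK hP hR hI A S hAS h1 h2
  constructor
  · by_contra hno
    have hno' : ¬ HasPos (completeBipartiteGraph (Fin s) (Fin s)) G (fun i a => y i (z i a)) :=
      fun h => hno (h.comp hz)
    have hS : ∀ i j, i ≠ j → P i i j → P j j i := by
      intro i j hij h1
      by_contra h2
      exact hno' (posK hP hR hI hij hij.symm h2 (hP.irr i) (hP.s23 h1))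
    have rule : ∀ i j c, i ≠ j → Far P i j → P i j c → P i i c := by
      intro i j c hij hf hc
      by_contra hn
      have hic : i ≠ c := by
        rintro rfl
        exact hf.1 (hP.s23 hc)
      have hjc : j ≠ c := by
        rintro rfl
        exact hf.2 (hP.s23 (hP.s12 hc))
      exact hno' (posK hP hR hI hij hjc hf.2 (fun e => hn (hS c i hic.symm e)) hc)
    have hb := bound1 hP (m - 1) hcap hS (fun i j c hij hf hc => ⟨rule i j c hij hf hc,
      rule j i c hij.symm ⟨hf.2, hf.1⟩ (hP.s12 hc)⟩) (fun _ => 1 / (k : ℝ)) (smp_uniform hk)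
    exact absurd hX (not_lt.mpr (rho_le (nat_half hm) (T_uniform hPX) hb))
  · by_contra hno
    have hno' : ¬ HasPos (gE s) G (fun i a => y i (z i a)) := fun h => hno (h.comp hz)
    have hS : ∀ i j, i ≠ j → P i i j → P j j i := by
      intro i j hij h1
      by_contra h2
      exact hno' (posE hP hR hI hij h1 h2)
    have rule : ∀ i j c, i ≠ j → Far P i j → P i j c → P i i c := by
      intro i j c hij hf hc
      by_contra hn
      have hic : i ≠ c := by
        rintro rfl
        exact hf.1 (hP.s23 hc)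
      have hjc : j ≠ c := by
        rintro rfl
        exact hf.2 (hP.s23 (hP.s12 hc))
      exact hno' (posE' hP hR hI hij hic hjc hf.1 hn hc)
    have hb := bound1 hP (m - 1) hcap hS (fun i j c hij hf hc => ⟨rule i j c hij hf hc,
      rule j i c hij.symm ⟨hf.2, hf.1⟩ (hP.s12 hc)⟩) (fun _ => 1 / (k : ℝ)) (smp_uniform hk)
    exact absurd hX (not_lt.mpr (rho_le (nat_half hm) (T_uniform hPX) hb))

end Pool.Agent.N442.LP
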