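import Pool.Agent.Y47.BU.Cnt
import Pool.Agent.N442.LP.Loc2
import Pool.Agent.N442.CL.Count

/-!
# Counting blow-ups and copies
-/

set_option autoImplicit false

open Finset
open scoped Classical

namespace Pool.Agent.N442.LP

open Pool.Agent.Y47.BU

section
variable {V : Type} [Fintype V]

theorem pull_le {A B : Type} [Fintype A] [Fintype B] (e : A → B) (he : Function.Injective e)
    (s : Finset (B → V)) (t : Finset (A → V)) (h : ∀ w ∈ s, w ∘ e ∈ t) :
    s.card ≤ t.card * Fintype.card V ^ (Fintype.card B - Fintype.card A) := by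
  have h1 : s.card ≤ (t ×ˢ (univ : Finset ({j : B // j ∉ Set.range e} → V))).card := by
    refine card_le_card_of_injOn (fun w => (w ∘ e, fun j => w j.1)) ?_ ?_
    · intro w hw
      exact mem_coe.mpr (mem_product.mpr ⟨h w hw, mem_univ _⟩)
    · intro w _ w' _ h
      have ha := (Prod.mk.inj h).1
      have hb := (Prod.mk.inj h).2
      funext j
      by_cases hj : j ∈ Set.range e
      · obtain ⟨i, rfl⟩ := hj
        exact congrFun ha i
      · exact congrFun hb ⟨j, hj⟩
  refine h1.trans (le_of_eq ?_)
  rw [card_product, card_univ (α := {j : B // j ∉ Set.range e} → V), Fintype.card_fun]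
  have h2 : Fintype.card {j : B // j ∉ Set.range e} = Fintype.card B - Fintype.card A := by
    rw [Fintype.card_subtype_compl]
    have h3 : Fintype.card {j : B // j ∈ Set.range e} = Fintype.card A :=
      (Fintype.card_congr (Equiv.ofInjective e he)).symm
    rw [h3]
  rw [h2]

theorem pull_ge {A B : Type} [Fintype A] [Fintype B] (e : A → B) (he : Function.Injective e)
    (t : Finset (A → V)) :
    t.card * Fintype.card V ^ (Fintype.card B - Fintype.card A) ≤
      ((univ : Finset (B → V)).filter fun w => w ∘ e ∈ t).card := by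
  have h2 : Fintype.card {j : B // j ∉ Set.range e} = Fintype.card B - Fintype.card A := by
    rw [Fintype.card_subtype_compl]
    have h3 : Fintype.card {j : B // j ∈ Set.range e} = Fintype.card A :=
      (Fintype.card_congr (Equiv.ofInjective e he)).symm
    rw [h3]
  have h4 : t.card * Fintype.card V ^ (Fintype.card B - Fintype.card A) =
      (t ×ˢ (univ : Finset ({j : B // j ∉ Set.range e} → V))).card := by
    rw [card_product, card_univ (α := {j : B // j ∉ Set.range e} → V), Fintype.card_fun, h2]
  rw [h4]
  let g : (A → V) × ({j : B // j ∉ Set.range e} → V) → B → V := fun p j =>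
    if h : j ∈ Set.range e then p.1 h.choose else p.2 ⟨j, h⟩
  have g1 : ∀ p a, g p (e a) = p.1 a := by
    intro p a
    have h : e a ∈ Set.range e := ⟨a, rfl⟩
    have h' : h.choose = a := he h.choose_spec
    simp only [g, dif_pos h, h']
  have g2 : ∀ p (j : {j : B // j ∉ Set.range e}), g p j.1 = p.2 j := by
    intro p j
    simp only [g, dif_neg j.2]
  refine card_le_card_of_injOn g ?_ ?_
  · intro p hp
    refine mem_coe.mpr (mem_filter.mpr ⟨mem_univ _, ?_⟩)
    have : g p ∘ e = p.1 := by funext a; exact g1 p a
    rw [this]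
    exact (mem_product.mp (mem_coe.mp hp)).1
  · intro p _ p' _ h
    refine Prod.ext ?_ ?_
    · funext a
      rw [← g1 p a, ← g1 p' a, h]
    · funext j
      rw [← g2 p j, ← g2 p' j, h]

theorem coll_le {B : Type} [Fintype B] (a b : B) (hab : a ≠ b) :
    ((univ : Finset (B → V)).filter fun w => w a = w b).card ≤
      Fintype.card V ^ (Fintype.card B - 1) := by
  have h1 : ((univ : Finset (B → V)).filter fun w => w a = w b).card ≤
      (univ : Finset ({j : B // j ≠ b} → V)).card := by
    refine card_le_card_of_injOn (fun w j => w j.1) (fun _ _ => mem_coe.mpr (mem_univ _)) ?_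
    intro w hw w' hw' h
    have a1 := (mem_filter.mp (mem_coe.mp hw)).2
    have a2 := (mem_filter.mp (mem_coe.mp hw')).2
    funext j
    by_cases hj : j = b
    · subst hj
      rw [← a1, ← a2]
      exact congrFun h ⟨a, hab⟩
    · exact congrFun h ⟨j, hj⟩
  refine h1.trans (le_of_eq ?_)
  rw [card_univ, Fintype.card_fun]
  congr 1
  rw [Fintype.card_subtype_compl, Fintype.card_subtype_eq]

end

/-- the number of pairs of a vertex and an induced copy of `F` in its link -/
noncomputable def cop {α : Type} [Fintype α] (F : SimpleGraph α) {n : ℕ}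
    (G : Finset (Finset (Fin n))) : ℕ :=
  ((univ : Finset (Option α → Fin n)).filter fun w => IsCopy F G (w none) (fun a => w (some a))).card

theorem curry_card {k T n : ℕ} (s : Finset (Fin k → Fin T → Fin n)) :
    s.card = (s.image (fun y => fun p : Fin k × Fin T => y p.1 p.2)).card := by
  rw [card_image_of_injective]
  intro y y' h
  funext a b
  exact congrFun h (a, b)

/-- few copies, few families with a copy -/
theorem count_pos {α : Type} [Fintype α] (F : SimpleGraph α) (k T n : ℕ)
    (G : Finset (Finset (Fin n))) :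
    ((univ : Finset (Fin k → Fin T → Fin n)).filter (HasPos F G)).card ≤
      (k * T) ^ (Fintype.card α + 1) * (cop F G * n ^ (k * T - (Fintype.card α + 1))) := by
  rw [curry_card]
  set E : Finset (Option α → Fin k × Fin T) := univ.filter Function.Injective with hE
  set t : Finset (Option α → Fin n) :=
    univ.filter fun w => IsCopy F G (w none) (fun a => w (some a)) with ht
  have h1 : (((univ : Finset (Fin k → Fin T → Fin n)).filter (HasPos F G)).image
      (fun y => fun p : Fin k × Fin T => y p.1 p.2)) ⊆
      E.biUnion fun e => univ.filter fun w : Fin k × Fin T → Fin n => w ∘ e ∈ t := by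
    intro w hw
    obtain ⟨y, hy, rfl⟩ := mem_image.mp hw
    obtain ⟨e, he, hc⟩ := (mem_filter.mp hy).2
    rw [mem_biUnion]
    refine ⟨e, mem_filter.mpr ⟨mem_univ _, he⟩, mem_filter.mpr ⟨mem_univ _, ?_⟩⟩
    exact mem_filter.mpr ⟨mem_univ _, hc⟩
  refine (card_le_card h1).trans (card_biUnion_le.trans ?_)
  have h2 : ∀ e ∈ E, (univ.filter fun w : Fin k × Fin T → Fin n => w ∘ e ∈ t).card ≤
      cop F G * n ^ (k * T - (Fintype.card α + 1)) := by
    intro e he
    have h3 := pull_le (V := Fin n) e (mem_filter.mp he).2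
      (univ.filter fun w : Fin k × Fin T → Fin n => w ∘ e ∈ t) t
      (fun w hw => (mem_filter.mp hw).2)
    have c1 : Fintype.card (Option α) = Fintype.card α + 1 := Fintype.card_option
    rw [Fintype.card_prod, Fintype.card_fin, Fintype.card_fin, Fintype.card_fin, c1] at h3
    exact h3
  refine (sum_le_sum h2).trans ?_
  rw [sum_const, smul_eq_mul]
  refine Nat.mul_le_mul_right _ ?_
  have h4 : E.card ≤ (univ : Finset (Option α → Fin k × Fin T)).card := card_le_card (filter_subset _ _)
  refine h4.trans (le_of_eq ?_)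
  rw [card_univ, Fintype.card_fun, Fintype.card_prod, Fintype.card_fin, Fintype.card_fin,
    Fintype.card_option]

/-- the same with densities -/
theorem count_pos_real {α : Type} [Fintype α] (F : SimpleGraph α) (k T n : ℕ) (hn : 0 < n)
    (G : Finset (Finset (Fin n))) :
    (((univ : Finset (Fin k → Fin T → Fin n)).filter (HasPos F G)).card : ℝ) ≤
      ((k * T : ℕ) : ℝ) ^ (Fintype.card α + 1) * ((cop F G : ℝ) / (n : ℝ) ^ (Fintype.card α + 1)) *
        (n : ℝ) ^ (k * T) := by
  have hn' : (0 : ℝ) < n := by exact_mod_cast hn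
  rcases Nat.lt_or_ge (k * T) (Fintype.card α + 1) with h | h
  · have h0 : ((univ : Finset (Fin k → Fin T → Fin n)).filter (HasPos F G)) = ∅ := by
      ext y
      simp only [mem_filter, mem_univ, true_and, notMem_empty, iff_false]
      rintro ⟨e, he, -⟩
      have := Fintype.card_le_of_injective e he
      rw [Fintype.card_option, Fintype.card_prod, Fintype.card_fin, Fintype.card_fin] at this
      omega
    rw [h0, card_empty, Nat.cast_zero]
    positivity
  · have h1 := (Nat.cast_le (α := ℝ)).2 (count_pos F k T n G)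
    rw [Nat.cast_mul, Nat.cast_mul, Nat.cast_pow, Nat.cast_pow] at h1
    refine h1.trans (le_of_eq ?_)
    have h2 : (n : ℝ) ^ (k * T) = (n : ℝ) ^ (k * T - (Fintype.card α + 1)) *
        (n : ℝ) ^ (Fintype.card α + 1) := by
      rw [← pow_add]; congr 1; omega
    rw [h2]
    field_simp

/-- the number of degenerate families -/
theorem deg_count (k T n : ℕ) :
    ((univ : Finset (Fin k → Fin T → Fin n)).filter fun y => ¬ ∀ i, Function.Injective (y i)).card ≤
      (k * T) ^ 2 * n ^ (k * T - 1) := by
  rw [curry_card]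
  set E : Finset ((Fin k × Fin T) × (Fin k × Fin T)) := univ.filter fun p => p.1 ≠ p.2 with hE
  have h1 : (((univ : Finset (Fin k → Fin T → Fin n)).filter
      fun y => ¬ ∀ i, Function.Injective (y i)).image
      (fun y => fun p : Fin k × Fin T => y p.1 p.2)) ⊆
      E.biUnion fun e => univ.filter fun w : Fin k × Fin T → Fin n => w e.1 = w e.2 := by
    intro w hw
    obtain ⟨y, hy, rfl⟩ := mem_image.mp hw
    have h2 := (mem_filter.mp hy).2
    unfold Function.Injective at h2
    push Not at h2
    obtain ⟨i, a, b, hab, hne⟩ := h2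
    rw [mem_biUnion]
    refine ⟨((i, a), (i, b)), mem_filter.mpr ⟨mem_univ _, ?_⟩, mem_filter.mpr ⟨mem_univ _, hab⟩⟩
    intro h
    exact hne (congrArg Prod.snd h)
  refine (card_le_card h1).trans (card_biUnion_le.trans ?_)
  have h2 : ∀ e ∈ E, (univ.filter fun w : Fin k × Fin T → Fin n => w e.1 = w e.2).card ≤
      n ^ (k * T - 1) := by
    intro e he
    have h3 := coll_le (V := Fin n) e.1 e.2 (mem_filter.mp he).2
    rw [Fintype.card_prod, Fintype.card_fin, Fintype.card_fin, Fintype.card_fin] at h3
    refine le_trans (le_of_eq ?_) h3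
    exact congrArg card (by ext w; simp only [mem_filter, mem_univ])
  refine (sum_le_sum h2).trans ?_
  rw [sum_const, smul_eq_mul]
  refine Nat.mul_le_mul_right _ ?_
  refine (card_le_card (filter_subset _ _)).trans (le_of_eq ?_)
  rw [card_univ, Fintype.card_prod, Fintype.card_prod, Fintype.card_fin, Fintype.card_fin]
  ring

theorem deg_count' (k n : ℕ) :
    ((univ : Finset (Fin k → Fin n)).filter fun y => ¬ Function.Injective y).card ≤
      k ^ 2 * n ^ (k - 1) := by
  set E : Finset (Fin k × Fin k) := univ.filter fun p => p.1 ≠ p.2 with hE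
  have h1 : ((univ : Finset (Fin k → Fin n)).filter fun y => ¬ Function.Injective y) ⊆
      E.biUnion fun e => univ.filter fun w : Fin k → Fin n => w e.1 = w e.2 := by
    intro w hw
    have h2 := (mem_filter.mp hw).2
    unfold Function.Injective at h2
    push Not at h2
    obtain ⟨a, b, hab, hne⟩ := h2
    rw [mem_biUnion]
    exact ⟨(a, b), mem_filter.mpr ⟨mem_univ _, hne⟩, mem_filter.mpr ⟨mem_univ _, hab⟩⟩
  refine (card_le_card h1).trans (card_biUnion_le.trans ?_)
  have h2 : ∀ e ∈ E, (univ.filter fun w : Fin k → Fin n => w e.1 = w e.2).card ≤ n ^ (k - 1) := by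
    intro e he
    have h3 := coll_le (V := Fin n) e.1 e.2 (mem_filter.mp he).2
    rw [Fintype.card_fin, Fintype.card_fin] at h3
    refine le_trans (le_of_eq ?_) h3
    exact congrArg card (by ext w; simp only [mem_filter, mem_univ])
  refine (sum_le_sum h2).trans ?_
  rw [sum_const, smul_eq_mul]
  refine Nat.mul_le_mul_right _ ?_
  refine (card_le_card (filter_subset _ _)).trans (le_of_eq ?_)
  rw [card_univ, Fintype.card_prod, Fintype.card_fin]
  ring

/-- the link graph -/
def lk {n : ℕ} (G : Finset (Finset (Fin n))) (v : Fin n) : SimpleGraph (Fin n) where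
  Adj a b := a ≠ b ∧ a ≠ v ∧ b ≠ v ∧ ({v, a, b} : Finset (Fin n)) ∈ G
  symm := ⟨fun a b h => ⟨h.1.symm, h.2.2.1, h.2.1, by rw [Finset.pair_comm]; exact h.2.2.2⟩⟩
  loopless := ⟨fun _ h => h.1 rfl⟩

/-- the number of ordered triples -/
theorem QT_card {n : ℕ} (G : Finset (Finset (Fin n))) (h3 : ∀ e ∈ G, e.card = 3) :
    (QT G).card = 6 * G.card := by
  have h1 := Pool.Agent.N442.CL.sum_link G h3 (lk G) (fun v a b => Iff.rfl)
  have h2 : ∀ v, 2 * (lk G v).edgeFinset.card = ∑ a, ∑ b, if (lk G v).Adj a b then 1 else 0 := by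
    intro v
    rw [← SimpleGraph.sum_degrees_eq_twice_card_edges]
    refine sum_congr rfl fun a _ => ?_
    rw [← card_filter, ← SimpleGraph.card_neighborFinset_eq_degree]
    congr 1
    ext b
    simp
  have h4 : (QT G).card = ∑ v, ∑ a, ∑ b, if (lk G v).Adj a b then 1 else 0 := by
    have e1 : ∑ v, ∑ a, ∑ b, (if (lk G v).Adj a b then 1 else 0) =
        ((univ : Finset (Fin n × Fin n × Fin n)).filter fun p => (lk G p.1).Adj p.2.1 p.2.2).card := by
      rw [card_filter, Fintype.sum_prod_type]
      refine sum_congr rfl fun v _ => ?_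
      rw [Fintype.sum_prod_type]
    rw [e1]
    refine card_bij (fun f _ => (f 0, f 1, f 2)) ?_ ?_ ?_
    · intro f hf
      have h := (mem_filter.mp hf).2
      refine mem_filter.mpr ⟨mem_univ _, ?_⟩
      exact ⟨fun e => absurd (h.1 e) (by decide), fun e => absurd (h.1 e) (by decide),
        fun e => absurd (h.1 e) (by decide), h.2⟩
    · intro f _ g _ h
      simp only [Prod.mk.injEq] at h
      funext i
      fin_cases i
      · exact h.1
      · exact h.2.1
      · exact h.2.2
    · rintro ⟨a, b, c⟩ hp
      have h := (mem_filter.mp hp).2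
      refine ⟨![a, b, c], mem_filter.mpr ⟨mem_univ _, ?_, ?_⟩, rfl⟩
      · intro i j hij
        obtain ⟨g1, g2, g3, -⟩ := h
        fin_cases i <;> fin_cases j <;> simp_all
      · exact h.2.2.2
  rw [h4, ← sum_congr rfl fun v _ => h2 v, ← mul_sum, h1]
  ring

/-- the pattern of a map -/
noncomputable def pat {k n : ℕ} (G : Finset (Finset (Fin n))) (φ : Fin k → Fin n) :
    Finset (Finset (Fin k)) :=
  univ.filter fun e => e.image φ ∈ G

theorem mem_SX_pat {k n : ℕ} (G : Finset (Finset (Fin n))) {φ : Fin k → Fin n}
    (h : Function.Injective φ) : φ ∈ SX G (pat G φ) := by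
  refine mem_filter.mpr ⟨mem_univ _, h, fun a b c _ _ _ => ?_⟩
  unfold pat
  rw [mem_filter, image_insert, image_insert, image_singleton]
  simp

theorem inj_card (k : ℕ) : ((univ : Finset (Fin 3 → Fin k)).filter Function.Injective).card =
    k.descFactorial 3 := by
  rw [← Fintype.card_subtype, Fintype.card_congr (Equiv.subtypeInjectiveEquivEmbedding (Fin 3) (Fin k)),
    Fintype.card_embedding_eq, Fintype.card_fin, Fintype.card_fin]

/-- the average density of the pattern of a map -/
theorem avg {k n : ℕ} (G : Finset (Finset (Fin n))) :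
    k.descFactorial 3 * ((QT G).card * n ^ (k - 3)) ≤ ∑ φ : Fin k → Fin n, (QT (pat G φ)).card := by
  have h1 : ∑ φ : Fin k → Fin n, (QT (pat G φ)).card =
      ∑ e ∈ (univ : Finset (Fin 3 → Fin k)).filter Function.Injective,
        ((univ : Finset (Fin k → Fin n)).filter
          fun φ => ({φ (e 0), φ (e 1), φ (e 2)} : Finset (Fin n)) ∈ G).card := by
    have e1 : ∀ φ : Fin k → Fin n, (QT (pat G φ)).card =
        ∑ e ∈ (univ : Finset (Fin 3 → Fin k)).filter Function.Injective,
          if ({φ (e 0), φ (e 1), φ (e 2)} : Finset (Fin n)) ∈ G then 1 else 0 := by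
      intro φ
      rw [← card_filter, filter_filter]
      congr 1
      unfold QT pat
      ext e
      simp [image_insert]
    simp only [e1]
    rw [sum_comm]
    refine sum_congr rfl fun e _ => ?_
    rw [card_filter]
  rw [h1, ← inj_card k, ← smul_eq_mul, ← sum_const]
  refine sum_le_sum fun e he => ?_
  have h2 := pull_ge (V := Fin n) e (mem_filter.mp he).2 (QT G)
  rw [Fintype.card_fin, Fintype.card_fin, Fintype.card_fin] at h2
  refine h2.trans ?_
  have h4 : ((univ : Finset (Fin k → Fin n)).filter fun w => w ∘ e ∈ QT G).card ≤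
      ((univ : Finset (Fin k → Fin n)).filter
        fun φ => ({φ (e 0), φ (e 1), φ (e 2)} : Finset (Fin n)) ∈ G).card := by
    refine card_le_card ?_
    intro φ hφ
    have h3 := (mem_filter.mp hφ).2
    unfold QT at h3
    exact mem_filter.mpr ⟨mem_univ _, (mem_filter.mp h3).2.2⟩
  refine le_trans (le_of_eq ?_) h4
  exact congrArg card (by ext w; simp only [mem_filter, mem_univ])

end Pool.Agent.N442.LP
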