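import Pool.Agent.N442.LP.Cnt

/-!
# Turán's constructions

The vertices `i < n` are coloured with `i % L`. For even `L` the colours `2 j`, `2 j + 1` form a
block; for odd `L` the colours `0, 1, 2` form a special block and the colours `2 j + 1`, `2 j + 2`
form a block for `j ≥ 1`.
-/

set_option autoImplicit false

open Finset

namespace Pool.Agent.N442.LP.Tur

/-- the block of a colour -/
def blk (L r : ℕ) : ℕ := if L % 2 = 0 then r / 2 else (r - 1) / 2

/-- the colour patterns of the missing triples -/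
def HT (L a b c : ℕ) : Prop :=
  blk L a = blk L b ∧ blk L b = blk L c ∧ (L % 2 = 0 ∨ blk L a ≠ 0 ∨ (a = b ∧ b = c) ∨
    (a = b ∧ c = (a + 2) % 3) ∨ (b = c ∧ a = (b + 2) % 3) ∨ (a = c ∧ b = (a + 2) % 3))

instance (L a b c : ℕ) : Decidable (HT L a b c) := by unfold HT; infer_instance

theorem HT.s12 {L a b c : ℕ} (h : HT L a b c) : HT L b a c := by
  unfold HT at h ⊢
  obtain ⟨h1, h2, h3⟩ := h
  refine ⟨h1.symm, h1.trans h2, ?_⟩
  rcases h3 with h3 | h3 | h3 | h3 | h3 | h3
  · exact Or.inl h3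
  · exact Or.inr (Or.inl (by rw [← h1]; exact h3))
  · exact Or.inr (Or.inr (Or.inl ⟨h3.1.symm, h3.1.trans h3.2⟩))
  · exact Or.inr (Or.inr (Or.inr (Or.inl ⟨h3.1.symm, by rw [← h3.1]; exact h3.2⟩)))
  · exact Or.inr (Or.inr (Or.inr (Or.inr (Or.inr h3))))
  · exact Or.inr (Or.inr (Or.inr (Or.inr (Or.inl h3))))

theorem HT.s23 {L a b c : ℕ} (h : HT L a b c) : HT L a c b := by
  unfold HT at h ⊢
  obtain ⟨h1, h2, h3⟩ := h
  refine ⟨h1.trans h2, h2.symm, ?_⟩
  rcases h3 with h3 | h3 | h3 | h3 | h3 | h3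
  · exact Or.inl h3
  · exact Or.inr (Or.inl h3)
  · exact Or.inr (Or.inr (Or.inl ⟨h3.1.trans h3.2, h3.2.symm⟩))
  · exact Or.inr (Or.inr (Or.inr (Or.inr (Or.inr h3))))
  · exact Or.inr (Or.inr (Or.inr (Or.inr (Or.inl ⟨h3.1.symm, by rw [← h3.1]; exact h3.2⟩))))
  · exact Or.inr (Or.inr (Or.inr (Or.inl h3)))

/-- the missing triples -/
def mis (L n : ℕ) : Finset (Finset (Fin n)) :=
  ((univ : Finset (Fin n)).powersetCard 3).filter fun e =>
    ∃ a ∈ e, ∃ b ∈ e, ∃ c ∈ e, a ≠ b ∧ b ≠ c ∧ a ≠ c ∧ HT L (a.val % L) (b.val % L) (c.val % L)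

/-- Turán's 3-graph -/
def tur (L n : ℕ) : Finset (Finset (Fin n)) := ((univ : Finset (Fin n)).powersetCard 3) \ mis L n

theorem mem_mis {L n : ℕ} {a b c : Fin n} (hab : a ≠ b) (hbc : b ≠ c) (hac : a ≠ c) :
    ({a, b, c} : Finset (Fin n)) ∈ mis L n ↔ HT L (a.val % L) (b.val % L) (c.val % L) := by
  unfold mis
  rw [mem_filter, mem_powersetCard]
  constructor
  · rintro ⟨-, x, hx, y, hy, z, hz, hxy, hyz, hxz, h⟩
    simp only [mem_insert, mem_singleton] at hx hy hz
    rcases hx with rfl | rfl | rfl <;> rcases hy with rfl | rfl | rfl <;>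
      rcases hz with rfl | rfl | rfl <;>
      first
      | exact absurd rfl hxy
      | exact absurd rfl hyz
      | exact absurd rfl hxz
      | exact h
      | exact h.s12
      | exact h.s23
      | exact h.s12.s23
      | exact h.s23.s12
      | exact h.s12.s23.s12
  · intro h
    exact ⟨⟨subset_univ _, card_eq_three.mpr ⟨a, b, c, hab, hac, hbc, rfl⟩⟩, a, by simp, b, by simp,
      c, by simp, hab, hbc, hac, h⟩

theorem mem_tur {L n : ℕ} {a b c : Fin n} (hab : a ≠ b) (hbc : b ≠ c) (hac : a ≠ c) :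
    ({a, b, c} : Finset (Fin n)) ∈ tur L n ↔ ¬ HT L (a.val % L) (b.val % L) (c.val % L) := by
  unfold tur
  rw [mem_sdiff, mem_mis hab hbc hac, mem_powersetCard]
  constructor
  · exact fun h => h.2
  · intro h
    exact ⟨⟨subset_univ _, card_eq_three.mpr ⟨a, b, c, hab, hac, hbc, rfl⟩⟩, h⟩

theorem tur_three {L n : ℕ} : ∀ e ∈ tur L n, e.card = 3 := fun e he =>
  (mem_powersetCard.mp (mem_sdiff.mp he).1).2

/-- the neighbours of a colour -/
def nb (L a : ℕ) : Finset (ℕ × ℕ) :=
  if L % 2 = 1 ∧ a < 3 then {(a, a), (a, (a + 2) % 3), ((a + 2) % 3, a), ((a + 1) % 3, (a + 1) % 3)}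
  else if L % 2 = a % 2 then {(a, a), (a, a + 1), (a + 1, a), (a + 1, a + 1)}
  else {(a, a), (a, a - 1), (a - 1, a), (a - 1, a - 1)}

theorem nb_card (L a : ℕ) : (nb L a).card ≤ 4 := by
  unfold nb
  split_ifs <;> exact card_le_four

theorem HT_nb {L a b c : ℕ} (ha : a < L) (hb : b < L) (hc : c < L) (h : HT L a b c) :
    (b, c) ∈ nb L a := by
  unfold HT blk at h
  obtain ⟨h1, h2, h3⟩ := h
  unfold nb
  split_ifs at h1 h2 h3 ⊢ <;> simp only [mem_insert, mem_singleton, Prod.mk.injEq] <;> omega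

/-- the number of missing triples -/
theorem mis_card {L n : ℕ} (hL : 0 < L) : 6 * (mis L n).card ≤ 4 * n * (n / L + 1) ^ 2 := by
  classical
  have h3 : ∀ e ∈ mis L n, e.card = 3 := fun e he => (mem_powersetCard.mp (mem_filter.mp he).1).2
  rw [← QT_card (mis L n) h3]
  have h1 : (QT (mis L n)).card ≤ ((univ : Finset (Fin n)).sigma fun a =>
      (nb L (a.val % L)).biUnion fun p =>
        ((univ : Finset (Fin n)).filter fun i => i.val % L = p.1) ×ˢ
        ((univ : Finset (Fin n)).filter fun i => i.val % L = p.2)).card := by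
    refine card_le_card_of_injOn (fun f => (⟨f 0, (f 1, f 2)⟩ : (_ : Fin n) × (Fin n × Fin n))) ?_ ?_
    · intro f hf
      have hf' := (mem_filter.mp (mem_coe.mp hf)).2
      have n1 : f 0 ≠ f 1 := fun e => absurd (hf'.1 e) (by decide)
      have n2 : f 1 ≠ f 2 := fun e => absurd (hf'.1 e) (by decide)
      have n3 : f 0 ≠ f 2 := fun e => absurd (hf'.1 e) (by decide)
      have h := (mem_mis n1 n2 n3).mp hf'.2
      refine mem_coe.mpr (mem_sigma.mpr ⟨mem_univ _, mem_biUnion.mpr
        ⟨_, HT_nb (Nat.mod_lt _ hL) (Nat.mod_lt _ hL) (Nat.mod_lt _ hL) h, mem_product.mpr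
          ⟨mem_filter.mpr ⟨mem_univ _, rfl⟩, mem_filter.mpr ⟨mem_univ _, rfl⟩⟩⟩⟩)
    · intro f _ g _ h
      simp only [Sigma.mk.injEq, heq_eq_eq, Prod.mk.injEq] at h
      funext i
      fin_cases i
      · exact h.1
      · exact h.2.1
      · exact h.2.2
  refine h1.trans ?_
  rw [card_sigma]
  have hcls : ∀ c : ℕ, ((univ : Finset (Fin n)).filter fun i => i.val % L = c).card ≤ n / L + 1 := by
    intro c
    rcases Nat.lt_or_ge c L with hc | hc
    · rw [Pool.Agent.N442.CL.class_card hL hc]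
      split_ifs <;> omega
    · have : ((univ : Finset (Fin n)).filter fun i => i.val % L = c) = ∅ := by
        ext i
        simp only [mem_filter, mem_univ, true_and, notMem_empty, iff_false]
        have := Nat.mod_lt i.val hL
        omega
      rw [this]
      simp
  have h2 : ∀ a : Fin n, ((nb L (a.val % L)).biUnion fun p =>
        ((univ : Finset (Fin n)).filter fun i => i.val % L = p.1) ×ˢ
        ((univ : Finset (Fin n)).filter fun i => i.val % L = p.2)).card ≤ 4 * (n / L + 1) ^ 2 := by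
    intro a
    refine card_biUnion_le.trans ?_
    have h3 : ∀ p ∈ nb L (a.val % L), (((univ : Finset (Fin n)).filter fun i => i.val % L = p.1) ×ˢ
        ((univ : Finset (Fin n)).filter fun i => i.val % L = p.2)).card ≤ (n / L + 1) ^ 2 := by
      intro p _
      rw [card_product, pow_two]
      exact Nat.mul_le_mul (hcls _) (hcls _)
    refine (sum_le_sum h3).trans ?_
    rw [sum_const, smul_eq_mul]
    exact Nat.mul_le_mul_right _ (nb_card _ _)
  refine (sum_le_sum fun a _ => h2 a).trans (le_of_eq ?_)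
  rw [sum_const, card_univ, Fintype.card_fin, smul_eq_mul]
  ring

/-- the number of edges -/
theorem tur_density (L : ℕ) (hL : 2 ≤ L) {ε : ℝ} (hε : 0 < ε) : ∃ N : ℕ, ∀ n : ℕ, N ≤ n →
    (rho L - ε) * (n.choose 3 : ℝ) ≤ ((tur L n).card : ℝ) := by
  obtain ⟨N, hN⟩ := exists_nat_gt (60 / ε)
  refine ⟨max N 6, fun n hn => ?_⟩
  have hn6 : (6 : ℝ) ≤ n := by exact_mod_cast (le_max_right _ _).trans hn
  have hnN : 60 / ε < (n : ℝ) := hN.trans_le (by exact_mod_cast (le_max_left _ _).trans hn)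
  rw [div_lt_iff₀ hε] at hnN
  have hL' : (2 : ℝ) ≤ L := by exact_mod_cast hL
  have hL0 : (0 : ℝ) < L := by linarith
  have h1 : mis L n ⊆ (univ : Finset (Fin n)).powersetCard 3 := filter_subset _ _
  have h2 : ((tur L n).card : ℝ) = (n.choose 3 : ℝ) - ((mis L n).card : ℝ) := by
    unfold tur
    have h3 := card_sdiff_add_card_eq_card h1
    rw [card_powersetCard, card_univ, Fintype.card_fin] at h3
    have h4 : ((((univ : Finset (Fin n)).powersetCard 3 \ mis L n).card : ℕ) : ℝ) +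
        ((mis L n).card : ℝ) = (n.choose 3 : ℝ) := by exact_mod_cast h3
    linarith
  have h5 : (6 : ℝ) * ((mis L n).card : ℝ) ≤ 4 * n * ((n : ℝ) / L + 1) ^ 2 := by
    have h6 := (Nat.cast_le (α := ℝ)).2 (mis_card (L := L) (n := n) (by omega))
    push_cast at h6
    refine h6.trans ?_
    have h7 : (((n / L : ℕ) : ℝ)) ≤ (n : ℝ) / L := Nat.cast_div_le
    have h8 : (0 : ℝ) ≤ ((n / L : ℕ) : ℝ) := Nat.cast_nonneg _
    have h9 : (((n / L : ℕ) : ℝ) + 1) ^ 2 ≤ ((n : ℝ) / L + 1) ^ 2 :=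
      pow_le_pow_left₀ (by linarith) (by linarith) 2
    exact mul_le_mul_of_nonneg_left h9 (by positivity)
  have hch : (6 : ℝ) * (n.choose 3 : ℝ) = n * (n - 1) * (n - 2) := by
    obtain ⟨a, ha⟩ : ∃ a, n = a + 3 := ⟨n - 3, by
      have : 6 ≤ n := (le_max_right _ _).trans hn
      omega⟩
    have h6 : 6 * n.choose 3 = n.descFactorial 3 := by
      rw [Nat.descFactorial_eq_factorial_mul_choose]
      rfl
    have h7 : (6 * (n.choose 3 : ℝ)) = ((n.descFactorial 3 : ℕ) : ℝ) := by exact_mod_cast h6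
    rw [h7, ha]
    have : (a + 3).descFactorial 3 = (a + 3) * (a + 2) * (a + 1) := by
      simp [Nat.descFactorial]
      ring
    rw [this]
    push_cast
    ring
  rw [h2]
  unfold rho
  have e1 : 4 * (n : ℝ) * ((n : ℝ) / L + 1) ^ 2 = 4 / (L : ℝ) ^ 2 * (n : ℝ) ^ 3 +
      8 / L * (n : ℝ) ^ 2 + 4 * n := by
    field_simp
    ring
  rw [e1] at h5
  have e2 : 8 / (L : ℝ) * (n : ℝ) ^ 2 ≤ 4 * (n : ℝ) ^ 2 := by
    refine mul_le_mul_of_nonneg_right ?_ (by positivity)
    rw [div_le_iff₀ hL0]; linarith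
  have e3 : 4 / (L : ℝ) ^ 2 ≤ 1 := by
    rw [div_le_iff₀ (by positivity)]; nlinarith
  have e4 : (0 : ℝ) ≤ 4 / (L : ℝ) ^ 2 := by positivity
  have e5 : 4 / (L : ℝ) ^ 2 * (n : ℝ) ^ 3 ≤ 4 / (L : ℝ) ^ 2 * (6 * (n.choose 3 : ℝ)) +
      3 * (n : ℝ) ^ 2 := by
    have : (n : ℝ) ^ 3 ≤ 6 * (n.choose 3 : ℝ) + 3 * (n : ℝ) ^ 2 := by
      rw [hch]; nlinarith
    nlinarith [mul_le_mul_of_nonneg_left this e4, sq_nonneg (n : ℝ)]
  have e6 : 11 * (n : ℝ) ^ 2 ≤ ε * (6 * (n.choose 3 : ℝ)) := by
    have a1 : (n : ℝ) ^ 3 / 3 ≤ 6 * (n.choose 3 : ℝ) := by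
      rw [hch]; nlinarith
    have a2 : ε * ((n : ℝ) ^ 3 / 3) ≤ ε * (6 * (n.choose 3 : ℝ)) :=
      mul_le_mul_of_nonneg_left a1 hε.le
    have a3 : 60 * (n : ℝ) ^ 2 ≤ n * ε * (n : ℝ) ^ 2 :=
      mul_le_mul_of_nonneg_right hnN.le (by positivity)
    nlinarith
  nlinarith

/-- number of blocks -/
def nblk (L : ℕ) : ℕ := if L % 2 = 0 then L / 2 else (L - 1) / 2

theorem tur_free {L n : ℕ} (hL : 2 ≤ L) : KFree (L + 1) (tur L n) := by
  classical
  intro S hS
  by_contra hcon
  push Not at hcon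
  have hall : ∀ a ∈ S, ∀ b ∈ S, ∀ c ∈ S, a ≠ b → b ≠ c → a ≠ c →
      ¬ HT L (a.val % L) (b.val % L) (c.val % L) := by
    intro a ha b hb c hc hab hbc hac
    rw [← mem_tur hab hbc hac]
    refine hcon _ (mem_powersetCard.mpr ⟨?_, card_eq_three.mpr ⟨a, b, c, hab, hac, hbc, rfl⟩⟩)
    intro x hx
    simp only [mem_insert, mem_singleton] at hx
    rcases hx with rfl | rfl | rfl <;> assumption
  have hmaps : ∀ i ∈ S, blk L (i.val % L) ∈ range (nblk L) := by
    intro i _
    rw [mem_range]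
    have := Nat.mod_lt i.val (show 0 < L by omega)
    unfold blk nblk
    split_ifs <;> omega
  have hcard := card_eq_sum_card_fiberwise hmaps
  have hcap : ∀ t ∈ range (nblk L), (S.filter fun i => blk L (i.val % L) = t).card ≤
      if t = 0 ∧ L % 2 = 1 then 3 else 2 := by
    intro t ht
    by_contra hlt
    push Not at hlt
    split_ifs at hlt with hsp
    · obtain ⟨rfl, hodd⟩ := hsp
      -- two vertices of the same colour
      have hm : ∀ i ∈ S.filter (fun i => blk L (i.val % L) = 0), i.val % L ∈ range 3 := by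
        intro i hi
        have := (mem_filter.mp hi).2
        have h2 := Nat.mod_lt i.val (show 0 < L by omega)
        unfold blk at this
        rw [mem_range]
        split_ifs at this <;> omega
      obtain ⟨x, hx, y, hy, hxy, hc⟩ := exists_ne_map_eq_of_card_lt_of_maps_to
        (s := S.filter (fun i => blk L (i.val % L) = 0)) (t := range 3)
        (f := fun i : Fin n => i.val % L)
        (by rw [card_range]; exact hlt) (fun i hi => mem_coe.mpr (hm i (mem_coe.mp hi)))
      have hxy2 : 2 ≤ ((S.filter (fun i => blk L (i.val % L) = 0)) \ {x, y}).card := by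
        have h1 := le_card_sdiff ({x, y} : Finset (Fin n)) (S.filter (fun i => blk L (i.val % L) = 0))
        have h2 : ({x, y} : Finset (Fin n)).card ≤ 2 := card_le_two
        omega
      obtain ⟨z, hz, w, hw, hzw⟩ := one_lt_card.mp (show 1 < _ from hxy2)
      rw [mem_sdiff, mem_insert, mem_singleton, not_or] at hz hw
      have hx' := mem_filter.mp hx
      have hy' := mem_filter.mp hy
      have hz' := mem_filter.mp hz.1
      have hw' := mem_filter.mp hw.1
      have k1 := hall x hx'.1 y hy'.1 z hz'.1 hxy (Ne.symm hz.2.2) (Ne.symm hz.2.1)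
      have k2 := hall x hx'.1 y hy'.1 w hw'.1 hxy (Ne.symm hw.2.2) (Ne.symm hw.2.1)
      have k3 := hall z hz'.1 w hw'.1 x hx'.1 hzw hw.2.1 hz.2.1
      have b1 := mem_range.mp (hm x hx)
      have b2 := mem_range.mp (hm z hz.1)
      have b3 := mem_range.mp (hm w hw.1)
      rw [← hc] at k1 k2
      unfold HT at k1 k2 k3
      rw [hx'.2, hz'.2] at k1
      rw [hx'.2, hw'.2] at k2
      rw [hx'.2, hz'.2, hw'.2] at k3
      simp only [true_and, not_or, not_and, hodd] at k1 k2 k3
      omega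
    · obtain ⟨x, hx, y, hy, z, hz, hxy, hxz, hyz⟩ := two_lt_card.mp hlt
      have hx' := mem_filter.mp hx
      have hy' := mem_filter.mp hy
      have hz' := mem_filter.mp hz
      refine hall x hx'.1 y hy'.1 z hz'.1 hxy hyz hxz ⟨hx'.2.trans hy'.2.symm,
        hy'.2.trans hz'.2.symm, ?_⟩
      rw [hx'.2]
      by_cases h0 : t = 0
      · left
        by_contra h1
        exact hsp ⟨h0, by omega⟩
      · right; left; exact h0
  have hsum : ∑ t ∈ range (nblk L), (if t = 0 ∧ L % 2 = 1 then 3 else 2) ≤ L := by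
    have h1 : ∀ N : ℕ, ∑ t ∈ range N, (if t = 0 ∧ L % 2 = 1 then 3 else 2) ≤
        2 * N + if L % 2 = 1 then 1 else 0 := by
      intro N
      induction N with
      | zero => simp
      | succ N ih =>
        rw [sum_range_succ]
        by_cases hodd : L % 2 = 1
        · by_cases hN : N = 0
          · subst hN
            simp [hodd]
          · simp only [hodd, hN, false_and, if_false, if_true, and_true] at ih ⊢
            omega
        · simp only [hodd, and_false, if_false] at ih ⊢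
          omega
    refine (h1 _).trans ?_
    unfold nblk
    split_ifs <;> omega
  have := sum_le_sum hcap
  rw [← hcard, hS] at this
  omega

end Pool.Agent.N442.LP.Tur
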