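import Pool.Agent.N442.LP.Abs
import Pool.Agent.N442.LP.Tur

/-!
# The density theorems
-/

set_option autoImplicit false

open Finset
open scoped Classical

namespace Pool.Agent.N442.LP

/-- the density of the copies of `F` -/
noncomputable def qd {α : Type} [Fintype α] (F : SimpleGraph α) (n : ℕ)
    (G : Finset (Finset (Fin n))) : ℝ := (cop F G : ℝ) / (n : ℝ) ^ (Fintype.card α + 1)

theorem qd_nonneg {α : Type} [Fintype α] (F : SimpleGraph α) (n : ℕ)
    (G : Finset (Finset (Fin n))) : 0 ≤ qd F n G := by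
  unfold qd; positivity

theorem hq1 {α : Type} [Fintype α] (F : SimpleGraph α) (k T : ℕ) :
    ∃ C : ℝ, 0 ≤ C ∧ ∀ n : ℕ, 0 < n → ∀ G : Finset (Finset (Fin n)),
      (((univ : Finset (Fin k → Fin T → Fin n)).filter (HasPos F G)).card : ℝ) ≤
        C * qd F n G * (n : ℝ) ^ (k * T) :=
  ⟨((k * T : ℕ) : ℝ) ^ (Fintype.card α + 1), by positivity, fun n hn G => count_pos_real F k T n hn G⟩

/-- two conditions together -/
theorem hq_or {B1 B2 B3 : ∀ (k T n : ℕ), Finset (Finset (Fin n)) → (Fin k → Fin T → Fin n) → Prop}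
    (hB : ∀ k T n G y, B3 k T n G y → B1 k T n G y ∨ B2 k T n G y)
    {q1 q2 : ∀ n : ℕ, Finset (Finset (Fin n)) → ℝ} (n1 : ∀ n G, 0 ≤ q1 n G) (n2 : ∀ n G, 0 ≤ q2 n G)
    (h1 : ∀ k T : ℕ, ∃ C : ℝ, 0 ≤ C ∧ ∀ n : ℕ, 0 < n → ∀ G : Finset (Finset (Fin n)),
      (((univ : Finset (Fin k → Fin T → Fin n)).filter (B1 k T n G)).card : ℝ) ≤
        C * q1 n G * (n : ℝ) ^ (k * T))
    (h2 : ∀ k T : ℕ, ∃ C : ℝ, 0 ≤ C ∧ ∀ n : ℕ, 0 < n → ∀ G : Finset (Finset (Fin n)),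
      (((univ : Finset (Fin k → Fin T → Fin n)).filter (B2 k T n G)).card : ℝ) ≤
        C * q2 n G * (n : ℝ) ^ (k * T)) (k T : ℕ) :
    ∃ C : ℝ, 0 ≤ C ∧ ∀ n : ℕ, 0 < n → ∀ G : Finset (Finset (Fin n)),
      (((univ : Finset (Fin k → Fin T → Fin n)).filter (B3 k T n G)).card : ℝ)
        ≤ C * (q1 n G + q2 n G) * (n : ℝ) ^ (k * T) := by
  obtain ⟨C1, hC1, H1⟩ := h1 k T
  obtain ⟨C2, hC2, H2⟩ := h2 k T
  refine ⟨C1 + C2, by positivity, fun n hn G => ?_⟩
  have a1 := H1 n hn G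
  have a2 := H2 n hn G
  have a3 : (((univ : Finset (Fin k → Fin T → Fin n)).filter (B3 k T n G)).card : ℝ) ≤
      (((univ : Finset (Fin k → Fin T → Fin n)).filter (B1 k T n G)).card : ℝ) +
      (((univ : Finset (Fin k → Fin T → Fin n)).filter (B2 k T n G)).card : ℝ) := by
    have : ((univ : Finset (Fin k → Fin T → Fin n)).filter (B3 k T n G)).card ≤
        ((univ : Finset (Fin k → Fin T → Fin n)).filter (B1 k T n G)).card +
        ((univ : Finset (Fin k → Fin T → Fin n)).filter (B2 k T n G)).card := by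
      refine (card_le_card ?_).trans (card_union_le _ _)
      intro y hy
      rw [mem_union]
      rcases hB k T n G y (mem_filter.mp hy).2 with h | h
      · exact Or.inl (mem_filter.mpr ⟨mem_univ _, h⟩)
      · exact Or.inr (mem_filter.mpr ⟨mem_univ _, h⟩)
    exact_mod_cast this
  have p0 : (0 : ℝ) ≤ (n : ℝ) ^ (k * T) := by positivity
  have p1 : 0 ≤ C1 * q2 n G * (n : ℝ) ^ (k * T) := mul_nonneg (mul_nonneg hC1 (n2 n G)) p0
  have p2 : 0 ≤ C2 * q1 n G * (n : ℝ) ^ (k * T) := mul_nonneg (mul_nonneg hC2 (n1 n G)) p0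
  have e : (C1 + C2) * (q1 n G + q2 n G) * (n : ℝ) ^ (k * T) =
      C1 * q1 n G * (n : ℝ) ^ (k * T) + C2 * q2 n G * (n : ℝ) ^ (k * T) +
      C1 * q2 n G * (n : ℝ) ^ (k * T) + C2 * q1 n G * (n : ℝ) ^ (k * T) := by ring
  rw [e]
  linarith

theorem rho_nonneg {L : ℕ} (hL : 2 ≤ L) : 0 ≤ rho L := by
  unfold rho
  have : (2 : ℝ) ≤ L := by exact_mod_cast hL
  rw [sub_nonneg, div_le_iff₀ (by positivity)]
  nlinarith

/-- one of two copies -/
def BAB (s k T n : ℕ) (G : Finset (Finset (Fin n))) (y : Fin k → Fin T → Fin n) : Prop :=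
  HasPos (gA s) G y ∨ HasPos (gB s) G y

/-- one of two copies -/
def BCD (s k T n : ℕ) (G : Finset (Finset (Fin n))) (y : Fin k → Fin T → Fin n) : Prop :=
  HasPos (gC s) G y ∨ HasPos (gD s) G y

/-- one of four copies -/
def BABCD (s k T n : ℕ) (G : Finset (Finset (Fin n))) (y : Fin k → Fin T → Fin n) : Prop :=
  BAB s k T n G y ∨ BCD s k T n G y

/-- a copy -/
def B0 {α : Type} (F : SimpleGraph α) (k T n : ℕ) (G : Finset (Finset (Fin n)))
    (y : Fin k → Fin T → Fin n) : Prop := HasPos F G y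

/-- **four graphs** -/
theorem thm2 {m : ℕ} (hm : 3 ≤ m) (s : ℕ) {ε : ℝ} (hε : 0 < ε) : ∃ δ : ℝ, 0 < δ ∧ ∃ N : ℕ,
    ∀ n : ℕ, N ≤ n → ∀ G : Finset (Finset (Fin n)), (∀ e ∈ G, e.card = 3) → KFree m G →
      qd (gA s) n G + qd (gB s) n G + (qd (gC s) n G + qd (gD s) n G) ≤ δ →
      (G.card : ℝ) ≤ (rho (m - 1) + ε) * (n.choose 3 : ℝ) :=
  main_abs m (rho (m - 1)) (BABCD s)
    (fun n G => qd (gA s) n G + qd (gB s) n G + (qd (gC s) n G + qd (gD s) n G))
    (rho_nonneg (by omega))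
    (hq_or (B1 := BAB s) (B2 := BCD s) (fun _ _ _ _ _ h => h)
      (q1 := fun n G => qd (gA s) n G + qd (gB s) n G)
      (q2 := fun n G => qd (gC s) n G + qd (gD s) n G)
      (fun _ _ => add_nonneg (qd_nonneg _ _ _) (qd_nonneg _ _ _))
      (fun _ _ => add_nonneg (qd_nonneg _ _ _) (qd_nonneg _ _ _))
      (hq_or (B1 := B0 (gA s)) (B2 := B0 (gB s)) (fun _ _ _ _ _ h => h)
        (q1 := fun n G => qd (gA s) n G) (q2 := fun n G => qd (gB s) n G)
        (fun _ _ => qd_nonneg _ _ _) (fun _ _ => qd_nonneg _ _ _) (hq1 _) (hq1 _))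
      (hq_or (B1 := B0 (gC s)) (B2 := B0 (gD s)) (fun _ _ _ _ _ h => h)
        (q1 := fun n G => qd (gC s) n G) (q2 := fun n G => qd (gD s) n G)
        (fun _ _ => qd_nonneg _ _ _) (fun _ _ => qd_nonneg _ _ _) (hq1 _) (hq1 _)))
    (fun k hk => loc2 (by omega) k s hk) hε

/-- **`K_{s,s}`** -/
theorem thm1K {m : ℕ} (hm : 3 ≤ m) (s : ℕ) {ε : ℝ} (hε : 0 < ε) : ∃ δ : ℝ, 0 < δ ∧ ∃ N : ℕ,
    ∀ n : ℕ, N ≤ n → ∀ G : Finset (Finset (Fin n)), (∀ e ∈ G, e.card = 3) → KFree m G →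
      qd (completeBipartiteGraph (Fin s) (Fin s)) n G ≤ δ →
      (G.card : ℝ) ≤ (rho (2 * ((m - 1) / 2)) + ε) * (n.choose 3 : ℝ) :=
  main_abs m (rho (2 * ((m - 1) / 2))) (B0 (completeBipartiteGraph (Fin s) (Fin s)))
    (fun n G => qd (completeBipartiteGraph (Fin s) (Fin s)) n G)
    (rho_nonneg (by omega)) (hq1 _)
    (fun k hk => by
      obtain ⟨T, hT, h⟩ := loc1 hm k s hk
      exact ⟨T, hT, fun n G hK X y h1 h2 h3 => (h n G hK X y h1 h2 h3).1⟩) hε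

/-- **`K_2 ∪ s K_1`** -/
theorem thm1E {m : ℕ} (hm : 3 ≤ m) (s : ℕ) {ε : ℝ} (hε : 0 < ε) : ∃ δ : ℝ, 0 < δ ∧ ∃ N : ℕ,
    ∀ n : ℕ, N ≤ n → ∀ G : Finset (Finset (Fin n)), (∀ e ∈ G, e.card = 3) → KFree m G →
      qd (gE s) n G ≤ δ →
      (G.card : ℝ) ≤ (rho (2 * ((m - 1) / 2)) + ε) * (n.choose 3 : ℝ) :=
  main_abs m (rho (2 * ((m - 1) / 2))) (B0 (gE s))
    (fun n G => qd (gE s) n G)
    (rho_nonneg (by omega)) (hq1 _)
    (fun k hk => by
      obtain ⟨T, hT, h⟩ := loc1 hm k s hk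
      exact ⟨T, hT, fun n G hK X y h1 h2 h3 => (h n G hK X y h1 h2 h3).2⟩) hε

/-- the number of copies through embeddings into link graphs -/
theorem cop_le {α : Type} [Fintype α] (F : SimpleGraph α) {n : ℕ} (G : Finset (Finset (Fin n)))
    (L : Fin n → SimpleGraph (Fin n))
    (hL : ∀ v a b, (L v).Adj a b ↔ a ≠ b ∧ a ≠ v ∧ b ≠ v ∧ ({v, a, b} : Finset (Fin n)) ∈ G) :
    cop F G ≤ ∑ v, Nat.card (F ↪g L v) := by
  have hfin : ∀ v, Finite (F ↪g L v) := fun v => DFunLike.finite _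
  have h1 : ∑ v, Nat.card (F ↪g L v) = Nat.card (Σ v, (F ↪g L v)) := by
    rw [Nat.card_sigma]
  rw [h1]
  have h2 : cop F G = Nat.card {w : Option α → Fin n // IsCopy F G (w none) (fun a => w (some a))} := by
    unfold cop
    rw [Nat.card_eq_fintype_card, Fintype.card_subtype]
  rw [h2]
  refine Nat.card_le_card_of_injective (fun w => (⟨w.1 none,
    { toFun := fun a => w.1 (some a)
      inj' := w.2.1
      map_rel_iff' := ?_ }⟩ : Σ v, (F ↪g L v))) ?_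
  · intro a b
    have h := w.2
    change (L (w.1 none)).Adj (w.1 (some a)) (w.1 (some b)) ↔ F.Adj a b
    rw [hL]
    by_cases hab : a = b
    · subst hab
      simp
    · rw [h.2.2 a b hab]
      constructor
      · exact fun h' => h'.2.2.2
      · intro h'
        exact ⟨fun e => hab (h.1 e), h.2.1 a, h.2.1 b, h'⟩
  · intro w w' h
    simp only [Sigma.mk.injEq] at h
    obtain ⟨e1, e2⟩ := h
    apply Subtype.ext
    funext o
    cases o with
    | none => exact e1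
    | some a =>
      have key : ∀ (v v' : Fin n) (f : F ↪g L v) (f' : F ↪g L v'), v = v' → HEq f f' →
          f a = f' a := by
        intro v v' f f' hv hf
        subst hv
        rw [eq_of_heq hf]
      exact key _ _ _ _ e1 e2

end Pool.Agent.N442.LP
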