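import Pool.Agent.N442.LP.Cnt

/-!
# The density theorem for a general condition on blow-ups
-/

set_option autoImplicit false

open Finset
open scoped Classical

namespace Pool.Agent.N442.LP

open Pool.Agent.Y47.BU

section

variable (m : ℕ) (ρ : ℝ)
  (Bd : ∀ (k T n : ℕ), Finset (Finset (Fin n)) → (Fin k → Fin T → Fin n) → Prop)
  (q : ∀ n : ℕ, Finset (Finset (Fin n)) → ℝ)

/-- dense patterns have few copies -/
theorem few_SX (hq : ∀ k T : ℕ, ∃ C : ℝ, 0 ≤ C ∧ ∀ n : ℕ, 0 < n → ∀ G : Finset (Finset (Fin n)),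
      (((univ : Finset (Fin k → Fin T → Fin n)).filter (Bd k T n G)).card : ℝ) ≤
        C * q n G * (n : ℝ) ^ (k * T))
    (hloc : ∀ k : ℕ, 0 < k → ∃ T : ℕ, 0 < T ∧ ∀ (n : ℕ) (G : Finset (Finset (Fin n))), KFree m G →
      ∀ (X : Finset (Finset (Fin k))) (y : Fin k → Fin T → Fin n),
      (∀ f : Fin k → Fin T, (fun i => y i (f i)) ∈ SX G X) → (∀ i, Function.Injective (y i)) →
      ρ * (k : ℝ) ^ 3 < ((QT X).card : ℝ) → Bd k T n G y)
    (k : ℕ) (hk : 0 < k) {c : ℝ} (hc : 0 < c) : ∃ δ : ℝ, 0 < δ ∧ ∃ N : ℕ, ∀ n : ℕ, N ≤ n →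
      ∀ G : Finset (Finset (Fin n)), KFree m G → q n G ≤ δ → ∀ X : Finset (Finset (Fin k)),
      ρ * (k : ℝ) ^ 3 < ((QT X).card : ℝ) → ((SX G X).card : ℝ) ≤ c * (n : ℝ) ^ k := by
  obtain ⟨T, hT, hl⟩ := hloc k hk
  obtain ⟨C, hC, hCq⟩ := hq k T
  set c' : ℝ := c ^ (T ^ k) with hc'
  have hc'0 : 0 < c' := by positivity
  obtain ⟨N, hN⟩ := exists_nat_gt (2 * ((k * T : ℕ) : ℝ) ^ 2 / c')
  refine ⟨c' / (2 * (C + 1)), by positivity, max N 1, fun n hn G hK hqd X hX => ?_⟩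
  by_contra hcon
  push Not at hcon
  have hn1 : 1 ≤ n := (le_max_right _ _).trans hn
  have hn0 : (0 : ℝ) < n := by exact_mod_cast hn1
  have hnN : 2 * ((k * T : ℕ) : ℝ) ^ 2 / c' < n :=
    hN.trans_le (by exact_mod_cast (le_max_left _ _).trans hn)
  rw [div_lt_iff₀ hc'0] at hnN
  have h1 := bl_card (V := Fin n) (n := (n : ℝ)) (by rw [Fintype.card_fin]) hn0 hT k (SX G X)
  have h2 : c' ≤ (((SX G X).card : ℝ) / (n : ℝ) ^ k) ^ (T ^ k) := by
    rw [hc']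
    refine pow_le_pow_left₀ hc.le ?_ _
    rw [le_div_iff₀ (by positivity)]
    exact hcon.le
  have h3 : c' * (n : ℝ) ^ (k * T) ≤ ((Bl k T (SX G X)).card : ℝ) := by
    refine le_trans ?_ h1
    rw [mul_comm]
    exact mul_le_mul_of_nonneg_left h2 (by positivity)
  have h4 : (Bl k T (SX G X)).card ≤
      ((univ : Finset (Fin k → Fin T → Fin n)).filter fun y => ¬ ∀ i, Function.Injective (y i)).card +
      ((univ : Finset (Fin k → Fin T → Fin n)).filter (Bd k T n G)).card := by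
    refine (card_le_card ?_).trans (card_union_le _ _)
    intro y hy
    have hy' : ∀ f : Fin k → Fin T, (fun i => y i (f i)) ∈ SX G X := by
      simp only [Bl, mem_filter, mem_univ, true_and] at hy
      exact hy
    rw [mem_union]
    by_cases h : ∀ i, Function.Injective (y i)
    · right
      exact mem_filter.mpr ⟨mem_univ _, hl n G hK X y hy' h hX⟩
    · left
      exact mem_filter.mpr ⟨mem_univ _, h⟩
  have h5 : ((Bl k T (SX G X)).card : ℝ) ≤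
      ((k * T : ℕ) : ℝ) ^ 2 * (n : ℝ) ^ (k * T - 1) + C * q n G * (n : ℝ) ^ (k * T) := by
    have a1 := (Nat.cast_le (α := ℝ)).2 h4
    have a2 := (Nat.cast_le (α := ℝ)).2 (deg_count k T n)
    have a3 := hCq n hn1 G
    rw [Nat.cast_add] at a1
    rw [Nat.cast_mul, Nat.cast_pow, Nat.cast_pow] at a2
    linarith
  have hkT : 1 ≤ k * T := Nat.mul_pos hk hT
  have h6 : (n : ℝ) ^ (k * T) = (n : ℝ) ^ (k * T - 1) * n := by
    rw [← pow_succ]; congr 1; omega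
  set Y : ℝ := (n : ℝ) ^ (k * T - 1) with hY
  have hY0 : 0 < Y := by positivity
  rw [h6] at h3 h5
  have h7 : C * q n G * (Y * n) ≤ c' / 2 * (Y * n) := by
    refine mul_le_mul_of_nonneg_right ?_ (by positivity)
    have : C * q n G ≤ C * (c' / (2 * (C + 1))) := mul_le_mul_of_nonneg_left hqd hC
    refine this.trans ?_
    rw [mul_div_assoc', div_le_div_iff₀ (by positivity) (by positivity)]
    nlinarith
  have h8 : ((k * T : ℕ) : ℝ) ^ 2 * Y < c' / 2 * (Y * n) := by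
    have : ((k * T : ℕ) : ℝ) ^ 2 < c' / 2 * n := by linarith
    calc ((k * T : ℕ) : ℝ) ^ 2 * Y < c' / 2 * n * Y := mul_lt_mul_of_pos_right this hY0
      _ = c' / 2 * (Y * n) := by ring
  linarith

theorem QT_le {k : ℕ} (X : Finset (Finset (Fin k))) : (QT X).card ≤ k ^ 3 := by
  refine (card_le_card (filter_subset _ _)).trans (le_of_eq ?_)
  rw [card_univ, Fintype.card_fun, Fintype.card_fin, Fintype.card_fin]

/-- **The density theorem.** -/
theorem main_abs (hρ : 0 ≤ ρ)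
    (hq : ∀ k T : ℕ, ∃ C : ℝ, 0 ≤ C ∧ ∀ n : ℕ, 0 < n → ∀ G : Finset (Finset (Fin n)),
      (((univ : Finset (Fin k → Fin T → Fin n)).filter (Bd k T n G)).card : ℝ) ≤
        C * q n G * (n : ℝ) ^ (k * T))
    (hloc : ∀ k : ℕ, 0 < k → ∃ T : ℕ, 0 < T ∧ ∀ (n : ℕ) (G : Finset (Finset (Fin n))), KFree m G →
      ∀ (X : Finset (Finset (Fin k))) (y : Fin k → Fin T → Fin n),
      (∀ f : Fin k → Fin T, (fun i => y i (f i)) ∈ SX G X) → (∀ i, Function.Injective (y i)) →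
      ρ * (k : ℝ) ^ 3 < ((QT X).card : ℝ) → Bd k T n G y)
    {ε : ℝ} (hε : 0 < ε) : ∃ δ : ℝ, 0 < δ ∧ ∃ N : ℕ, ∀ n : ℕ, N ≤ n →
      ∀ G : Finset (Finset (Fin n)), (∀ e ∈ G, e.card = 3) → KFree m G → q n G ≤ δ →
      (G.card : ℝ) ≤ (ρ + ε) * (n.choose 3 : ℝ) := by
  obtain ⟨η, hη⟩ : ∃ η : ℝ, η = ε / 8 := ⟨_, rfl⟩
  have hη0 : 0 < η := by rw [hη]; positivity
  obtain ⟨k0, hk0⟩ := exists_nat_gt (3 / η)
  set k := max k0 3 with hk
  have hk3 : 3 ≤ k := le_max_right _ _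
  have hkη : 3 / η < k := hk0.trans_le (by exact_mod_cast le_max_left _ _)
  have hkR : (0 : ℝ) < k := by
    have : (3 : ℝ) ≤ k := by exact_mod_cast hk3
    linarith
  rw [div_lt_iff₀ hη0] at hkη
  set M : ℝ := (Fintype.card (Finset (Finset (Fin k))) : ℝ) with hM
  have hM0 : 0 < M := by
    rw [hM]
    exact_mod_cast Fintype.card_pos
  obtain ⟨δ, hδ, N, hN⟩ := few_SX m ρ Bd q hq hloc k (by omega) (c := η / M) (by positivity)
  obtain ⟨N2, hN2⟩ := exists_nat_gt (((k : ℝ) ^ 2) / η)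
  obtain ⟨N3, hN3⟩ := exists_nat_gt (3 * (ρ + 8 * η) / (5 * η))
  refine ⟨δ, hδ, max (max N N2) (max N3 3), fun n hn G h3 hK hqd => ?_⟩
  have hnN : N ≤ n := (le_max_left _ _).trans ((le_max_left _ _).trans hn)
  have hnN2 : ((k : ℝ) ^ 2) / η < n :=
    hN2.trans_le (by exact_mod_cast (le_max_right _ _).trans ((le_max_left _ _).trans hn))
  have hnN3 : 3 * (ρ + 8 * η) / (5 * η) < n :=
    hN3.trans_le (by exact_mod_cast (le_max_left _ _).trans ((le_max_right _ _).trans hn))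
  have hn3 : 3 ≤ n := (le_max_right _ _).trans ((le_max_right _ _).trans hn)
  have hn0 : (0 : ℝ) < n := by
    have : (3 : ℝ) ≤ n := by exact_mod_cast hn3
    linarith
  rw [div_lt_iff₀ hη0] at hnN2
  rw [div_lt_iff₀ (by positivity)] at hnN3
  have hSX := hN n hnN G hK hqd
  -- the maps
  set B1 : Finset (Fin k → Fin n) := univ.filter fun φ => Function.Injective φ ∧
    ρ * (k : ℝ) ^ 3 < ((QT (pat G φ)).card : ℝ) with hB1
  set B2 : Finset (Fin k → Fin n) := univ.filter fun φ => ¬ Function.Injective φ with hB2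
  have hB1c : (B1.card : ℝ) ≤ η * (n : ℝ) ^ k := by
    have h1 : B1 ⊆ (univ.filter fun X : Finset (Finset (Fin k)) =>
        ρ * (k : ℝ) ^ 3 < ((QT X).card : ℝ)).biUnion fun X => SX G X := by
      intro φ hφ
      have h := (mem_filter.mp hφ).2
      rw [mem_biUnion]
      exact ⟨pat G φ, mem_filter.mpr ⟨mem_univ _, h.2⟩, mem_SX_pat G h.1⟩
    have h2 := (card_le_card h1).trans card_biUnion_le
    have h3 : (B1.card : ℝ) ≤ ∑ X ∈ (univ.filter fun X : Finset (Finset (Fin k)) =>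
        ρ * (k : ℝ) ^ 3 < ((QT X).card : ℝ)), ((SX G X).card : ℝ) := by exact_mod_cast h2
    refine h3.trans ((sum_le_sum fun X hX => hSX X (mem_filter.mp hX).2).trans ?_)
    rw [sum_const, nsmul_eq_mul]
    have h4 : ((univ.filter fun X : Finset (Finset (Fin k)) =>
        ρ * (k : ℝ) ^ 3 < ((QT X).card : ℝ)).card : ℝ) ≤ M := by
      rw [hM]
      exact_mod_cast card_le_univ _
    calc _ ≤ M * (η / M * (n : ℝ) ^ k) := mul_le_mul_of_nonneg_right h4 (by positivity)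
      _ = η * (n : ℝ) ^ k := by field_simp
  have hB2c : (B2.card : ℝ) ≤ (k : ℝ) ^ 2 * (n : ℝ) ^ (k - 1) := by
    have := deg_count' k n
    exact_mod_cast this
  have hsum : (∑ φ : Fin k → Fin n, ((QT (pat G φ)).card : ℝ)) ≤
      ρ * (k : ℝ) ^ 3 * (n : ℝ) ^ k + (k : ℝ) ^ 3 * B1.card + (k : ℝ) ^ 3 * B2.card := by
    have h1 : ∀ φ : Fin k → Fin n, ((QT (pat G φ)).card : ℝ) ≤ ρ * (k : ℝ) ^ 3 +
        (k : ℝ) ^ 3 * (if φ ∈ B1 then 1 else 0) + (k : ℝ) ^ 3 * (if φ ∈ B2 then 1 else 0) := by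
      intro φ
      have h2 : ((QT (pat G φ)).card : ℝ) ≤ (k : ℝ) ^ 3 := by exact_mod_cast QT_le _
      have h3 : (0 : ℝ) ≤ ρ * (k : ℝ) ^ 3 := by positivity
      have h4 : (0 : ℝ) ≤ (k : ℝ) ^ 3 := by positivity
      by_cases hi : Function.Injective φ
      · by_cases hb : ρ * (k : ℝ) ^ 3 < ((QT (pat G φ)).card : ℝ)
        · have : φ ∈ B1 := mem_filter.mpr ⟨mem_univ _, hi, hb⟩
          rw [if_pos this]
          split_ifs <;> linarith
        · push Not at hb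
          split_ifs <;> linarith
      · have : φ ∈ B2 := mem_filter.mpr ⟨mem_univ _, hi⟩
        rw [if_pos this]
        split_ifs <;> linarith
    refine (sum_le_sum fun φ _ => h1 φ).trans (le_of_eq ?_)
    have e0 : (∑ _φ : Fin k → Fin n, ρ * (k : ℝ) ^ 3) = ρ * (k : ℝ) ^ 3 * (n : ℝ) ^ k := by
      rw [sum_const, card_univ, Fintype.card_fun, Fintype.card_fin, Fintype.card_fin, nsmul_eq_mul]
      push_cast
      ring
    have e1 : (∑ φ : Fin k → Fin n, (k : ℝ) ^ 3 * (if φ ∈ B1 then (1 : ℝ) else 0)) =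
        (k : ℝ) ^ 3 * B1.card := by
      rw [← mul_sum, ← sum_filter]
      simp
    have e2 : (∑ φ : Fin k → Fin n, (k : ℝ) ^ 3 * (if φ ∈ B2 then (1 : ℝ) else 0)) =
        (k : ℝ) ^ 3 * B2.card := by
      rw [← mul_sum, ← sum_filter]
      simp
    rw [sum_add_distrib, sum_add_distrib, e0, e1, e2]
  have hav : ((k.descFactorial 3 : ℕ) : ℝ) * ((QT G).card * (n : ℝ) ^ (k - 3)) ≤
      ∑ φ : Fin k → Fin n, ((QT (pat G φ)).card : ℝ) := by
    have := avg (k := k) G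
    exact_mod_cast this
  have hdf : (k : ℝ) ^ 3 ≤ ((k.descFactorial 3 : ℕ) : ℝ) + 3 * (k : ℝ) ^ 2 := by
    obtain ⟨a, ha⟩ : ∃ a, k = a + 3 := ⟨k - 3, by omega⟩
    rw [ha]
    have : (a + 3).descFactorial 3 = (a + 3) * (a + 2) * (a + 1) := by
      simp [Nat.descFactorial]
      ring
    rw [this]
    push_cast
    have ha0 : (0 : ℝ) ≤ a := Nat.cast_nonneg _
    nlinarith
  have hQn : ((QT G).card : ℝ) ≤ (n : ℝ) ^ 3 := by exact_mod_cast QT_le G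
  set Z : ℝ := (n : ℝ) ^ (k - 3) with hZ
  have hZ0 : 0 < Z := by positivity
  have z1 : (n : ℝ) ^ k = Z * (n : ℝ) ^ 3 := by
    rw [hZ, ← pow_add]; congr 1; omega
  have z2 : (n : ℝ) ^ (k - 1) = Z * (n : ℝ) ^ 2 := by
    rw [hZ, ← pow_add]; congr 1; omega
  rw [z1] at hB1c hsum
  rw [z2] at hB2c
  have t1 : (k : ℝ) ^ 3 * ((QT G).card * Z) ≤
      ρ * (k : ℝ) ^ 3 * (Z * (n : ℝ) ^ 3) + (k : ℝ) ^ 3 * (η * (Z * (n : ℝ) ^ 3)) +
      (k : ℝ) ^ 3 * ((k : ℝ) ^ 2 * (Z * (n : ℝ) ^ 2)) + 3 * (k : ℝ) ^ 2 * ((n : ℝ) ^ 3 * Z) := by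
    have a1 : (k : ℝ) ^ 3 * ((QT G).card * Z) ≤
        (((k.descFactorial 3 : ℕ) : ℝ) + 3 * (k : ℝ) ^ 2) * ((QT G).card * Z) :=
      mul_le_mul_of_nonneg_right hdf (by positivity)
    have a2 : 3 * (k : ℝ) ^ 2 * ((QT G).card * Z) ≤ 3 * (k : ℝ) ^ 2 * ((n : ℝ) ^ 3 * Z) :=
      mul_le_mul_of_nonneg_left (mul_le_mul_of_nonneg_right hQn hZ0.le) (by positivity)
    have a3 : (k : ℝ) ^ 3 * B1.card ≤ (k : ℝ) ^ 3 * (η * (Z * (n : ℝ) ^ 3)) :=
      mul_le_mul_of_nonneg_left hB1c (by positivity)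
    have a4 : (k : ℝ) ^ 3 * B2.card ≤ (k : ℝ) ^ 3 * ((k : ℝ) ^ 2 * (Z * (n : ℝ) ^ 2)) :=
      mul_le_mul_of_nonneg_left hB2c (by positivity)
    nlinarith
  have t2 : ((QT G).card : ℝ) ≤ (ρ + 3 * η) * (n : ℝ) ^ 3 := by
    have b1 : (k : ℝ) ^ 3 * ((k : ℝ) ^ 2 * (Z * (n : ℝ) ^ 2)) ≤
        (k : ℝ) ^ 3 * (η * (Z * (n : ℝ) ^ 3)) := by
      refine mul_le_mul_of_nonneg_left ?_ (by positivity)
      calc (k : ℝ) ^ 2 * (Z * (n : ℝ) ^ 2) ≤ (n * η) * (Z * (n : ℝ) ^ 2) :=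
            mul_le_mul_of_nonneg_right hnN2.le (by positivity)
        _ = η * (Z * (n : ℝ) ^ 3) := by ring
    have b2 : 3 * (k : ℝ) ^ 2 * ((n : ℝ) ^ 3 * Z) ≤ (k : ℝ) ^ 3 * (η * (Z * (n : ℝ) ^ 3)) := by
      calc 3 * (k : ℝ) ^ 2 * ((n : ℝ) ^ 3 * Z) ≤ (k * η) * (k : ℝ) ^ 2 * ((n : ℝ) ^ 3 * Z) := by
            refine mul_le_mul_of_nonneg_right ?_ (by positivity)
            exact mul_le_mul_of_nonneg_right hkη.le (by positivity)
        _ = (k : ℝ) ^ 3 * (η * (Z * (n : ℝ) ^ 3)) := by ring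
    have b3 : (k : ℝ) ^ 3 * Z * (QT G).card ≤ (k : ℝ) ^ 3 * Z * ((ρ + 3 * η) * (n : ℝ) ^ 3) := by
      nlinarith
    exact le_of_mul_le_mul_left b3 (by positivity)
  have hQG : ((QT G).card : ℝ) = 6 * G.card := by exact_mod_cast QT_card G h3
  have hch : (n : ℝ) ^ 3 - 3 * (n : ℝ) ^ 2 ≤ 6 * (n.choose 3 : ℝ) := by
    obtain ⟨a, ha⟩ : ∃ a, n = a + 3 := ⟨n - 3, by omega⟩
    have h6 : 6 * n.choose 3 = n.descFactorial 3 := by
      rw [Nat.descFactorial_eq_factorial_mul_choose]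
      rfl
    have h7 : (6 * (n.choose 3 : ℝ)) = ((n.descFactorial 3 : ℕ) : ℝ) := by exact_mod_cast h6
    rw [h7, ha]
    have : (a + 3).descFactorial 3 = (a + 3) * (a + 2) * (a + 1) := by
      simp [Nat.descFactorial]
      ring
    rw [this]
    push_cast
    have ha0 : (0 : ℝ) ≤ a := Nat.cast_nonneg _
    nlinarith
  have hε8 : ε = 8 * η := by rw [hη]; ring
  rw [hε8]
  have f1 : (ρ + 3 * η) * (n : ℝ) ^ 3 ≤ (ρ + 8 * η) * ((n : ℝ) ^ 3 - 3 * (n : ℝ) ^ 2) := by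
    have : 3 * (ρ + 8 * η) * (n : ℝ) ^ 2 ≤ n * (5 * η) * (n : ℝ) ^ 2 :=
      mul_le_mul_of_nonneg_right hnN3.le (by positivity)
    nlinarith
  have f2 : (ρ + 8 * η) * ((n : ℝ) ^ 3 - 3 * (n : ℝ) ^ 2) ≤ (ρ + 8 * η) * (6 * (n.choose 3 : ℝ)) :=
    mul_le_mul_of_nonneg_left hch (by positivity)
  linarith

end

end Pool.Agent.N442.LP
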