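import Pool.Agent.N442.LP.Lag
import Pool.Agent.H288R2.TP.Main

/-!
# Bounds for the density of a pattern

A pattern on `V` is a symmetric ternary relation `P`; `P a b c` for distinct `a`, `b`, `c` says that
the triples with one vertex in each of the parts `a`, `b`, `c` are edges, and `P a a b` that the
triples with two vertices in the part `a` and one in the part `b ≠ a` are edges.
-/

set_option autoImplicit false

open Finset
open scoped Classical

namespace Pool.Agent.N442.LP

variable {V : Type}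

/-- symmetric ternary relations without `P a a a` -/
structure IsPat (P : V → V → V → Prop) : Prop where
  s12 : ∀ {a b c}, P a b c → P b a c
  s23 : ∀ {a b c}, P a b c → P a c b
  irr : ∀ a, ¬ P a a a

/-- the indicator -/
noncomputable def ind (P : V → V → V → Prop) : V → V → V → ℝ := fun a b c => if P a b c then 1 else 0

theorem ind_sym {P : V → V → V → Prop} (hP : IsPat P) : Sym (ind P) := by
  constructor
  · intro a b c
    unfold ind
    have : P a b c ↔ P b a c := ⟨hP.s12, hP.s12⟩
    simp only [this]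
  · intro a b c
    unfold ind
    have : P a b c ↔ P a c b := ⟨hP.s23, hP.s23⟩
    simp only [this]

theorem ind_nonneg (P : V → V → V → Prop) (a b c : V) : 0 ≤ ind P a b c := by
  unfold ind; split_ifs <;> norm_num

theorem ind_le (P : V → V → V → Prop) (a b c : V) : ind P a b c ≤ 1 := by
  unfold ind; split_ifs <;> norm_num

theorem ind_one {P : V → V → V → Prop} {a b c : V} (h : P a b c) : ind P a b c = 1 := if_pos h

theorem ind_zero {P : V → V → V → Prop} {a b c : V} (h : ¬ P a b c) : ind P a b c = 0 := if_neg h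

variable [Fintype V]

theorem s1 (h : V → V → ℝ) : ∑ a : V, ∑ b : V, ∑ c : V, (if a = b then h a c else 0) =
    ∑ a, ∑ c, h a c := by
  refine sum_congr rfl fun a _ => ?_
  rw [sum_comm]
  refine sum_congr rfl fun c _ => ?_
  simp

theorem s2 (h : V → V → ℝ) : ∑ a : V, ∑ b : V, ∑ c : V, (if a = c then h a b else 0) =
    ∑ a, ∑ b, h a b := by
  refine sum_congr rfl fun a _ => sum_congr rfl fun c _ => ?_
  simp

theorem s3 (h : V → V → ℝ) : ∑ a : V, ∑ b : V, ∑ c : V, (if b = c then h b a else 0) =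
    ∑ a, ∑ b, h a b := by
  rw [sum_comm]
  refine sum_congr rfl fun a _ => sum_congr rfl fun c _ => ?_
  simp

theorem sum_id {P : V → V → V → Prop} (hP : IsPat P)
    (hX : ∀ a b c, a ≠ b → b ≠ c → a ≠ c → P a b c) (x : V → ℝ) :
    ∑ a, ∑ b, ∑ c, (1 - ind P a b c) * x a * x b * x c =
      ∑ a, x a ^ 3 + 3 * ∑ u, ∑ v, (if (¬ P u u v) ∧ u ≠ v then x u ^ 2 * x v else 0) := by
  set h : V → V → ℝ := fun u v => if (¬ P u u v) ∧ u ≠ v then x u ^ 2 * x v else 0 with hh
  have key : ∀ a b c, (1 - ind P a b c) * x a * x b * x c =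
      (if a = b then (if a = c then x a ^ 3 else 0) else 0) + (if a = b then h a c else 0) +
      (if a = c then h a b else 0) + (if b = c then h b a else 0) := by
    intro a b c
    by_cases hab : a = b
    · subst hab
      by_cases hac : a = c
      · subst hac
        have : ind P a a a = 0 := ind_zero (hP.irr a)
        simp [this, hh]
        ring
      · by_cases hp : P a a c
        · have : ind P a a c = 1 := ind_one hp
          simp [this, hh, hac, hp]
        · have e : (1 - ind P a a c) * x a * x a * x c = x a ^ 2 * x c := by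
            rw [ind_zero hp]; ring
          rw [e]
          simp [hh, hac, hp]
    · by_cases hac : a = c
      · subst hac
        have hba : b ≠ a := fun e => hab e.symm
        by_cases hp : P a a b
        · have : ind P a b a = 1 := ind_one (hP.s23 hp)
          simp [this, hh, hab, hba, hp]
        · have e : (1 - ind P a b a) * x a * x b * x a = x a ^ 2 * x b := by
            rw [ind_zero (fun h => hp (hP.s23 h))]; ring
          rw [e]
          simp [hh, hab, hba, hp]
      · by_cases hbc : b = c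
        · subst hbc
          have hba : b ≠ a := fun e => hab e.symm
          by_cases hp : P b b a
          · have : ind P a b b = 1 := ind_one (hP.s12 (hP.s23 hp))
            simp [this, hh, hab, hba, hp]
          · have e : (1 - ind P a b b) * x a * x b * x b = x b ^ 2 * x a := by
              rw [ind_zero (fun h => hp (hP.s23 (hP.s12 h)))]; ring
            rw [e]
            simp [hh, hab, hba, hp]
        · have : ind P a b c = 1 := ind_one (hX a b c hab hbc hac)
          simp [this, hab, hac, hbc]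
  simp only [key, sum_add_distrib]
  have e0 := s1 (fun a c : V => if a = c then x a ^ 3 else (0 : ℝ))
  have e1 := s1 h
  have e2 := s2 h
  have e3 := s3 h
  rw [e0, e1, e2, e3]
  have e4 : ∑ a : V, ∑ c : V, (if a = c then x a ^ 3 else (0 : ℝ)) = ∑ a, x a ^ 3 := by
    refine sum_congr rfl fun a _ => ?_
    simp
  rw [e4]
  ring

/-- the value for a support without missing transversal triples -/
theorem fin_bound {P : V → V → V → Prop} (hP : IsPat P) (L : ℕ) {w : V → ℝ} (hw : Smp w)
    (S0 : Finset V) (hS0 : ∀ a, a ∉ S0 → w a = 0)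
    (hX : ∀ a ∈ S0, ∀ b ∈ S0, ∀ c ∈ S0, a ≠ b → b ≠ c → a ≠ c → P a b c)
    (hcap : ∀ A S : Finset V, A ⊆ S → S ⊆ S0 → (∀ u ∈ A, ∀ v ∈ S, u ≠ v → P u u v) →
      A.card + S.card ≤ L) :
    4 ≤ (L : ℝ) ^ 2 * (1 - T (ind P) w w w) := by
  let U := {a // a ∈ S0}
  have hc := Helper288.TP.cubic (V := U) (fun u v => ¬ P u.1 u.1 v.1) L (by
    intro A S hAS hno
    have h := hcap (A.map (Function.Embedding.subtype _)) (S.map (Function.Embedding.subtype _))
      (map_subset_map.2 hAS) (by
        intro a ha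
        obtain ⟨u, -, rfl⟩ := mem_map.1 ha
        exact u.2) (by
        intro u hu v hv huv
        obtain ⟨u', hu', rfl⟩ := mem_map.1 hu
        obtain ⟨v', hv', rfl⟩ := mem_map.1 hv
        have := hno u' hu' v' hv' (fun e => huv (by rw [e]))
        exact not_not.mp this)
    rwa [card_map, card_map] at h) (fun u => w u.1) (fun u => hw.1 u.1)
  have sumU : ∀ f : V → ℝ, (∀ a, a ∉ S0 → f a = 0) → ∑ a, f a = ∑ u : U, f u.1 := by
    intro f hf
    rw [← sum_subset (subset_univ S0) (fun a _ ha => hf a ha)]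
    exact (sum_coe_sort S0 f).symm
  have h1 : ∑ u : U, w u.1 = 1 := by rw [← sumU w hS0]; exact hw.2
  have hPU : IsPat (fun a b c : U => P a.1 b.1 c.1) :=
    ⟨fun h => hP.s12 h, fun h => hP.s23 h, fun a => hP.irr a.1⟩
  have hid := sum_id hPU (fun a b c hab hbc hac => hX a.1 a.2 b.1 b.2 c.1 c.2
    (fun e => hab (Subtype.ext e)) (fun e => hbc (Subtype.ext e)) (fun e => hac (Subtype.ext e)))
    (fun u : U => w u.1)
  have hT : T (ind P) w w w = ∑ a : U, ∑ b : U, ∑ c : U, ind P a.1 b.1 c.1 * w a.1 * w b.1 * w c.1 := by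
    unfold T
    rw [sumU _ (fun a ha => by simp [hS0 a ha])]
    refine sum_congr rfl fun a _ => ?_
    rw [sumU _ (fun b hb => by simp [hS0 b hb])]
    refine sum_congr rfl fun b _ => ?_
    rw [sumU _ (fun c hc => by simp [hS0 c hc])]
  have h1c : ∑ a : U, ∑ b : U, ∑ c : U, w a.1 * w b.1 * w c.1 = 1 := by
    have : ∀ a b : U, ∑ c : U, w a.1 * w b.1 * w c.1 = w a.1 * w b.1 := by
      intro a b
      rw [← mul_sum, h1, mul_one]
    simp only [this]
    have : ∀ a : U, ∑ b : U, w a.1 * w b.1 = w a.1 := by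
      intro a
      rw [← mul_sum, h1, mul_one]
    simp only [this]
    exact h1
  have hsplit : ∑ a : U, ∑ b : U, ∑ c : U,
      (1 - ind (fun a b c : U => P a.1 b.1 c.1) a b c) * w a.1 * w b.1 * w c.1 =
      1 - T (ind P) w w w := by
    have e1 : (1 : ℝ) - T (ind P) w w w = ∑ a : U, ∑ b : U, ∑ c : U, w a.1 * w b.1 * w c.1 -
        ∑ a : U, ∑ b : U, ∑ c : U, ind P a.1 b.1 c.1 * w a.1 * w b.1 * w c.1 := by
      rw [h1c, hT]
    rw [e1, ← sum_sub_distrib]
    refine sum_congr rfl fun a _ => ?_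
    rw [← sum_sub_distrib]
    refine sum_congr rfl fun b _ => ?_
    rw [← sum_sub_distrib]
    refine sum_congr rfl fun c _ => ?_
    have : ind (fun a b c : U => P a.1 b.1 c.1) a b c = ind P a.1 b.1 c.1 := rfl
    rw [this]
    ring
  rw [h1] at hc
  rw [← hsplit, hid]
  refine le_trans (le_of_eq (by norm_num)) (hc.trans (le_of_eq ?_))
  congr!

/-- pairs of parts without arcs do not occur in the support -/
theorem no_pair {P : V → V → V → Prop} (hP : IsPat P) {w : V → ℝ} (hw : MinMax (ind P) w) {i j : V}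
    (hij : i ≠ j) (h : ∀ c, P i j c → P i i c ∧ P j j c) (hi : w i ≠ 0) (hj : w j ≠ 0) : False := by
  have h1 := second_order (ind_sym hP) hw hij hi hj
  have h2 : 0 ≤ ∑ c, w c * (ind P i i c + ind P j j c - 2 * ind P i j c) := by
    refine sum_nonneg fun c _ => mul_nonneg (hw.smp.1 c) ?_
    by_cases hc : P i j c
    · rw [ind_one hc, ind_one (h c hc).1, ind_one (h c hc).2]; norm_num
    · rw [ind_zero hc]
      linarith [ind_nonneg P i i c, ind_nonneg P j j c]
  linarith

/-- the two arcs between `i` and `j` are missing -/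
def Far (P : V → V → V → Prop) (i j : V) : Prop := ¬ P i i j ∧ ¬ P j j i

theorem le_of_max {P : V → V → V → Prop} {w : V → ℝ} (hw : MinMax (ind P) w) {L : ℕ}
    (h : 4 ≤ (L : ℝ) ^ 2 * (1 - T (ind P) w w w)) (x : V → ℝ) (hx : Smp x) :
    4 ≤ (L : ℝ) ^ 2 * (1 - T (ind P) x x x) := by
  have := hw.max x hx
  have hL : (0 : ℝ) ≤ (L : ℝ) ^ 2 := by positivity
  nlinarith [mul_nonneg hL (sub_nonneg.mpr this)]

/-- **Patterns of the first kind.** -/
theorem bound2 [Nonempty V] {P : V → V → V → Prop} (hP : IsPat P) (L : ℕ)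
    (hcap : ∀ A S : Finset V, A ⊆ S →
      (∀ a ∈ S, ∀ b ∈ S, ∀ c ∈ S, a ≠ b → b ≠ c → a ≠ c → P a b c) →
      (∀ u ∈ A, ∀ v ∈ S, u ≠ v → P u u v) → A.card + S.card ≤ L)
    (hR : ∀ i j c, i ≠ j → Far P i j → P i j c → P i i c ∧ P j j c)
    (hQ : ∀ i j c, i ≠ j → j ≠ c → i ≠ c → ¬ P i j c → Far P i j ∨ Far P j c ∨ Far P i c)
    (x : V → ℝ) (hx : Smp x) : 4 ≤ (L : ℝ) ^ 2 * (1 - T (ind P) x x x) := by
  obtain ⟨w, hw⟩ := exists_minMax (ind P)
  refine le_of_max hw ?_ x hx
  have hno : ∀ i j, i ≠ j → w i ≠ 0 → w j ≠ 0 → ¬ Far P i j := fun i j hij hi hj hf =>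
    no_pair hP hw hij (fun c hc => hR i j c hij hf hc) hi hj
  have hX : ∀ a ∈ univ.filter (fun a => w a ≠ 0), ∀ b ∈ univ.filter (fun a => w a ≠ 0),
      ∀ c ∈ univ.filter (fun a => w a ≠ 0), a ≠ b → b ≠ c → a ≠ c → P a b c := by
    intro a ha b hb c hc hab hbc hac
    rw [mem_filter] at ha hb hc
    by_contra h
    rcases hQ a b c hab hbc hac h with h | h | h
    · exact hno a b hab ha.2 hb.2 h
    · exact hno b c hbc hb.2 hc.2 h
    · exact hno a c hac ha.2 hc.2 h
  refine fin_bound hP L hw.smp _ (fun a ha => ?_) hX ?_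
  · by_contra h
    exact ha (mem_filter.mpr ⟨mem_univ _, h⟩)
  · intro A S hAS hS hno'
    exact hcap A S hAS (fun a ha b hb c hc => hX a (hS ha) b (hS hb) c (hS hc)) hno'

/-- **Patterns of the second kind.** -/
theorem bound1 [Nonempty V] {P : V → V → V → Prop} (hP : IsPat P) (L : ℕ)
    (hcap : ∀ A S : Finset V, A ⊆ S →
      (∀ a ∈ S, ∀ b ∈ S, ∀ c ∈ S, a ≠ b → b ≠ c → a ≠ c → P a b c) →
      (∀ u ∈ A, ∀ v ∈ S, u ≠ v → P u u v) → A.card + S.card ≤ L)
    (hS : ∀ i j, i ≠ j → P i i j → P j j i)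
    (hR : ∀ i j c, i ≠ j → Far P i j → P i j c → P i i c ∧ P j j c)
    (x : V → ℝ) (hx : Smp x) : 4 ≤ ((2 * (L / 2) : ℕ) : ℝ) ^ 2 * (1 - T (ind P) x x x) := by
  obtain ⟨w, hw⟩ := exists_minMax (ind P)
  refine le_of_max hw ?_ x hx
  have hno : ∀ i j, i ≠ j → w i ≠ 0 → w j ≠ 0 → P i i j := by
    intro i j hij hi hj
    by_contra h
    exact no_pair hP hw hij (fun c hc => hR i j c hij
      ⟨h, fun h' => h (hS j i hij.symm h')⟩ hc) hi hj
  have hX : ∀ a ∈ univ.filter (fun a => w a ≠ 0), ∀ b ∈ univ.filter (fun a => w a ≠ 0),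
      ∀ c ∈ univ.filter (fun a => w a ≠ 0), a ≠ b → b ≠ c → a ≠ c → P a b c := by
    intro i hi j hj k hk hij hjk hik
    rw [mem_filter] at hi hj hk
    by_contra h
    have q1 := second_order (ind_sym hP) hw hij hi.2 hj.2
    have q2 := second_order (ind_sym hP) hw hjk hj.2 hk.2
    have q3 := second_order (ind_sym hP) hw hik hi.2 hk.2
    have q : ∑ c, w c * (2 * ind P i i c + 2 * ind P j j c + 2 * ind P k k c - 2 * ind P i j c -
        2 * ind P j k c - 2 * ind P i k c) < 0 := by
      have e : ∑ c, w c * (2 * ind P i i c + 2 * ind P j j c + 2 * ind P k k c - 2 * ind P i j c -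
          2 * ind P j k c - 2 * ind P i k c) =
          ∑ c, w c * (ind P i i c + ind P j j c - 2 * ind P i j c) +
          ∑ c, w c * (ind P j j c + ind P k k c - 2 * ind P j k c) +
          ∑ c, w c * (ind P i i c + ind P k k c - 2 * ind P i k c) := by
        rw [← sum_add_distrib, ← sum_add_distrib]
        refine sum_congr rfl fun c _ => ?_
        ring
      rw [e]
      linarith
    refine absurd q (not_lt.mpr (sum_nonneg fun c _ => ?_))
    by_cases hc : w c = 0
    · rw [hc, zero_mul]
    refine mul_nonneg (hw.smp.1 c) ?_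
    have hji := hno j i hij.symm hj.2 hi.2
    have hij' := hno i j hij hi.2 hj.2
    have hki := hno k i hik.symm hk.2 hi.2
    have hik' := hno i k hik hi.2 hk.2
    have hkj := hno k j hjk.symm hk.2 hj.2
    have hjk' := hno j k hjk hj.2 hk.2
    by_cases c1 : c = i
    · subst c1
      rw [ind_zero (hP.irr c), ind_one hji, ind_one hki, ind_one (hP.s23 hij'),
        ind_one (hP.s23 hik'), ind_zero (fun h' => h (hP.s12 (hP.s23 h')))]
      norm_num
    by_cases c2 : c = j
    · subst c2
      rw [ind_zero (hP.irr c), ind_one hij', ind_one hkj, ind_one (hP.s12 (hP.s23 hji)),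
        ind_one (hP.s23 hjk'), ind_zero (fun h' => h (hP.s23 h'))]
      norm_num
    by_cases c3 : c = k
    · subst c3
      rw [ind_zero (hP.irr c), ind_one hik', ind_one hjk', ind_one (hP.s12 (hP.s23 hki)),
        ind_one (hP.s12 (hP.s23 hkj)), ind_zero h]
      norm_num
    rw [ind_one (hno i c (Ne.symm c1) hi.2 hc), ind_one (hno j c (Ne.symm c2) hj.2 hc),
      ind_one (hno k c (Ne.symm c3) hk.2 hc)]
    linarith [ind_le P i j c, ind_le P j k c, ind_le P i k c]
  refine fin_bound hP _ hw.smp _ (fun a ha => ?_) hX ?_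
  · by_contra h
    exact ha (mem_filter.mpr ⟨mem_univ _, h⟩)
  · intro A S hAS hS' _
    have h1 := hcap S S (Subset.refl _) (fun a ha b hb c hc => hX a (hS' ha) b (hS' hb) c (hS' hc))
      (fun u hu v hv huv => hno u v huv (mem_filter.mp (hS' hu)).2 (mem_filter.mp (hS' hv)).2)
    have h2 := card_le_card hAS
    omega

end Pool.Agent.N442.LP
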