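import Pool.Agent.Y47.BU.Ram
import Pool.Agent.N442.LP.Pat

/-!
# Homogeneous blow-ups in 3-graphs without complete `m`-sets
-/

set_option autoImplicit false

open Finset
open scoped Classical

namespace Pool.Agent.N442.LP

open Pool.Agent.Y47.BU

/-- independent sets in triple systems without complete `m`-sets -/
theorem indm (m : ℕ) : ∀ t : ℕ, ∃ N : ℕ, t ≤ N ∧ ∀ (α : Type) [LinearOrder α] (A : Finset α),
    N ≤ A.card → ∀ g : α → α → α → Bool, (∀ S ⊆ A, S.card = m →
      ∃ a ∈ S, ∃ b ∈ S, ∃ c ∈ S, a < b ∧ b < c ∧ g a b c = false) →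
    ∃ B : Finset α, B ⊆ A ∧ B.card = t ∧
      ∀ a ∈ B, ∀ b ∈ B, ∀ c ∈ B, a < b → b < c → g a b c = false := by
  induction m with
  | zero =>
    intro t
    refine ⟨t, le_refl _, fun α _ A _ g hg => ?_⟩
    obtain ⟨a, ha, -⟩ := hg ∅ (empty_subset _) card_empty
    exact absurd ha (notMem_empty _)
  | succ m ihm =>
    intro t
    induction t with
    | zero =>
      exact ⟨0, le_refl _, fun α _ A _ g _ => ⟨∅, empty_subset _, card_empty,
        fun a ha => absurd ha (notMem_empty _)⟩⟩
    | succ t ih =>
      obtain ⟨N, -, hN⟩ := ih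
      obtain ⟨N', hN't, hN'⟩ := ihm (t + 1)
      obtain ⟨M, hM, hR⟩ := ramsey Bool (max N N')
      refine ⟨1 + M, by have := (le_max_right N N').trans hM; omega, fun α _ A hA g hg => ?_⟩
      have hne : A.Nonempty := card_pos.mp (by omega)
      set x0 := A.min' hne with hx0
      have hx0A : x0 ∈ A := min'_mem A hne
      have h1 : M ≤ (A.erase x0).card := by
        rw [card_erase_of_mem hx0A]
        omega
      obtain ⟨B, c, hB, hs, hh⟩ := hR α _ h1 (fun a b => g x0 a b)
      have hBA : ∀ b ∈ B, b ∈ A := fun b hb => mem_of_mem_erase (hB hb)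
      have hlt : ∀ b ∈ B, x0 < b := fun b hb =>
        lt_of_le_of_ne (min'_le A b (hBA b hb)) (ne_of_mem_erase (hB hb)).symm
      cases c with
      | true =>
        obtain ⟨D, hD, hDt, hDh⟩ := hN' α B (by rw [hs]; exact le_max_right _ _) g (by
          intro S hS hSm
          have hx0S : x0 ∉ S := fun h => lt_irrefl _ (hlt x0 (hS h))
          obtain ⟨a, ha, b, hb, c, hc, hab, hbc, hg'⟩ := hg (insert x0 S) (by
            intro a ha
            rcases mem_insert.mp ha with rfl | ha
            · exact hx0A
            · exact hBA a (hS ha)) (by rw [card_insert_of_notMem hx0S, hSm])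
          have key : ∀ b ∈ insert x0 S, a < b → b ∈ S := by
            intro b hb hab
            rcases mem_insert.mp hb with hb | hb
            · rcases mem_insert.mp ha with ha | ha
              · rw [ha, hb] at hab
                exact absurd hab (lt_irrefl _)
              · rw [hb] at hab
                exact absurd (hlt a (hS ha)) (not_lt.mpr hab.le)
            · exact hb
          have hbS := key b hb hab
          have hcS := key c hc (hab.trans hbc)
          rcases mem_insert.mp ha with ha | ha
          · subst ha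
            have := hh b (hS hbS) c (hS hcS) hbc
            rw [this] at hg'
            exact absurd hg' (by decide)
          · exact ⟨a, ha, b, hbS, c, hcS, hab, hbc, hg'⟩)
        exact ⟨D, fun b hb => hBA b (hD hb), hDt, hDh⟩
      | false =>
        obtain ⟨D, hD, hDt, hDh⟩ := hN α B (by rw [hs]; exact le_max_left _ _) g
          (fun S hS hSm => hg S (fun a ha => hBA a (hS ha)) hSm)
        have hnot : x0 ∉ D := fun hb => lt_irrefl _ (hlt x0 (hD hb))
        refine ⟨insert x0 D, ?_, by rw [card_insert_of_notMem hnot, hDt], ?_⟩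
        · intro b hb
          rcases mem_insert.mp hb with rfl | hb
          · exact hx0A
          · exact hBA b (hD hb)
        · intro a ha b hb c hc hab hbc
          have key : ∀ b ∈ insert x0 D, a < b → b ∈ D := by
            intro b hb hab
            rcases mem_insert.mp hb with hb | hb
            · rcases mem_insert.mp ha with ha | ha
              · rw [ha, hb] at hab
                exact absurd hab (lt_irrefl _)
              · rw [hb] at hab
                exact absurd (hlt a (hD ha)) (not_lt.mpr hab.le)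
            · exact hb
          have hbD := key b hb hab
          have hcD := key c hc (hab.trans hbc)
          rcases mem_insert.mp ha with ha | ha
          · rw [ha]
            exact hh b (hD hbD) c (hD hcD) hbc
          · exact hDh a ha b hbD c hcD hab hbc

/-- every `m`-set misses a triple -/
def KFree (m : ℕ) {n : ℕ} (G : Finset (Finset (Fin n))) : Prop :=
  ∀ S : Finset (Fin n), S.card = m → ∃ e ∈ S.powersetCard 3, e ∉ G

/-- the points `y a p` realise the pattern `P` -/
def Real {k t n : ℕ} (G : Finset (Finset (Fin n))) (P : Fin k → Fin k → Fin k → Prop)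
    (y : Fin k → Fin t → Fin n) : Prop :=
  ∀ a b c p q r, (a, p) ≠ (b, q) → (b, q) ≠ (c, r) → (a, p) ≠ (c, r) →
    (({y a p, y b q, y c r} : Finset (Fin n)) ∈ G ↔ P a b c)

/-- injective families -/
def Inj {k t n : ℕ} (y : Fin k → Fin t → Fin n) : Prop :=
  ∀ a p b q, y a p = y b q → a = b ∧ p = q

/-- three elements of a set with three elements, in increasing order -/
theorem sort_three {α : Type} [LinearOrder α] {e : Finset α} (he : e.card = 3) :
    ∃ a ∈ e, ∃ b ∈ e, ∃ c ∈ e, a < b ∧ b < c ∧ e = {a, b, c} := by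
  have h := orderEmbOfFin_mem e he
  refine ⟨e.orderEmbOfFin he 0, h 0, e.orderEmbOfFin he 1, h 1, e.orderEmbOfFin he 2, h 2,
    by simp, by simp, ?_⟩
  symm
  apply eq_of_subset_of_card_le
  · intro x hx
    simp only [mem_insert, mem_singleton] at hx
    rcases hx with rfl | rfl | rfl
    · exact h 0
    · exact h 1
    · exact h 2
  · rw [he]
    have h01 : e.orderEmbOfFin he 0 ≠ e.orderEmbOfFin he 1 := by simp
    have h02 : e.orderEmbOfFin he 0 ≠ e.orderEmbOfFin he 2 := by simp
    have h12 : e.orderEmbOfFin he 1 ≠ e.orderEmbOfFin he 2 := by simp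
    rw [card_eq_three.mpr ⟨_, _, _, h01, h02, h12, rfl⟩]

/-- **Homogeneous blow-ups.** -/
theorem hom_blow (m k t : ℕ) : ∃ T : ℕ, t ≤ T ∧ ∀ (n : ℕ) (G : Finset (Finset (Fin n))),
    KFree m G → ∀ y : Fin k → Fin T → Fin n, Inj y →
    ∃ z : Fin k → Fin t → Fin T, (∀ i, Function.Injective (z i)) ∧
      (∀ i a b c, a ≠ b → b ≠ c → a ≠ c →
        ({y i (z i a), y i (z i b), y i (z i c)} : Finset (Fin n)) ∉ G) ∧
      ∀ i j, i ≠ j → ∃ s : Prop, ∀ a b d, a ≠ b →
        (({y i (z i a), y i (z i b), y j (z j d)} : Finset (Fin n)) ∈ G ↔ s) := by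
  obtain ⟨N1, hN1, hP⟩ := prod_ram (ι := Fin k)
    ((univ.filter fun p : Fin k × Fin k => p.1 ≠ p.2).toList)
    (fun p hp => by
      rw [mem_toList, mem_filter] at hp
      exact hp.2) t
  obtain ⟨T, hT, hI⟩ := indm m N1
  refine ⟨T, hN1.trans hT, fun n G hK y hy => ?_⟩
  have h1 : ∀ i : Fin k, ∃ B : Finset (Fin T), B ⊆ univ ∧ B.card = N1 ∧
      ∀ a ∈ B, ∀ b ∈ B, ∀ c ∈ B, a < b → b < c →
        decide (({y i a, y i b, y i c} : Finset (Fin n)) ∈ G) = false := by
    intro i
    refine hI (Fin T) univ (by simp) (fun a b c => decide (({y i a, y i b, y i c} :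
      Finset (Fin n)) ∈ G)) (fun S _ hS => ?_)
    have hinj : Function.Injective (y i) := fun a b h => (hy i a i b h).2
    obtain ⟨e, he, heG⟩ := hK (S.image (y i)) (by rw [card_image_of_injective _ hinj, hS])
    rw [mem_powersetCard] at he
    have h2 : ∃ e' : Finset (Fin T), e' ⊆ S ∧ e'.image (y i) = e := by
      refine ⟨S.filter (fun a => y i a ∈ e), filter_subset _ _, ?_⟩
      ext x
      rw [mem_image]
      constructor
      · rintro ⟨a, ha, rfl⟩
        exact (mem_filter.mp ha).2
      · intro hx
        obtain ⟨a, ha, rfl⟩ := mem_image.mp (he.1 hx)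
        exact ⟨a, mem_filter.mpr ⟨ha, hx⟩, rfl⟩
    obtain ⟨e', he'S, he'⟩ := h2
    have h3 : e'.card = 3 := by
      rw [← he.2, ← he', card_image_of_injective _ hinj]
    obtain ⟨a, ha, b, hb, c, hc, hab, hbc, hee⟩ := sort_three h3
    refine ⟨a, he'S ha, b, he'S hb, c, he'S hc, hab, hbc, ?_⟩
    rw [decide_eq_false_iff_not]
    have : ({y i a, y i b, y i c} : Finset (Fin n)) = e := by
      rw [← he', hee]
      simp [image_insert]
    rw [this]
    exact heG
  choose A _ hAc hA using h1
  obtain ⟨B, hB, hBh⟩ := hP (Fin T) A (fun i => (hAc i).ge)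
    (fun i j a b d => decide (({y i a, y i b, y j d} : Finset (Fin n)) ∈ G))
  refine ⟨fun i a => (B i).orderEmbOfFin (hB i).2 a, fun i => ((B i).orderEmbOfFin (hB i).2).injective,
    ?_, ?_⟩
  · intro i a b c hab hbc hac
    have hmem : ∀ a, (B i).orderEmbOfFin (hB i).2 a ∈ A i := fun a =>
      (hB i).1 (orderEmbOfFin_mem _ _ _)
    set f := (B i).orderEmbOfFin (hB i).2 with hf
    have hfab : f a ≠ f b := fun h => hab (f.injective h)
    have hfbc : f b ≠ f c := fun h => hbc (f.injective h)
    have hfac : f a ≠ f c := fun h => hac (f.injective h)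
    have h3 : ({f a, f b, f c} : Finset (Fin T)).card = 3 :=
      card_eq_three.mpr ⟨_, _, _, hfab, hfac, hfbc, rfl⟩
    obtain ⟨a', ha', b', hb', c', hc', hab', hbc', he⟩ := sort_three h3
    have hsub : ∀ x ∈ ({f a, f b, f c} : Finset (Fin T)), x ∈ A i := by
      intro x hx
      simp only [mem_insert, mem_singleton] at hx
      rcases hx with rfl | rfl | rfl <;> exact hmem _
    have h4 := hA i a' (hsub _ ha') b' (hsub _ hb') c' (hsub _ hc') hab' hbc'
    rw [decide_eq_false_iff_not] at h4
    have h5 : ({y i (f a), y i (f b), y i (f c)} : Finset (Fin n)) =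
        {y i a', y i b', y i c'} := by
      have := congrArg (Finset.image (y i)) he
      simpa [image_insert] using this
    rw [h5]
    exact h4
  · intro i j hij
    obtain ⟨s, hs⟩ := hBh (i, j) (by
      rw [mem_toList, mem_filter]
      exact ⟨mem_univ _, hij⟩)
    refine ⟨s = true, fun a b d hab => ?_⟩
    have hmi : ∀ a, (B i).orderEmbOfFin (hB i).2 a ∈ B i := fun a => orderEmbOfFin_mem _ _ _
    have hmj : (B j).orderEmbOfFin (hB j).2 d ∈ B j := orderEmbOfFin_mem _ _ _
    rcases lt_or_gt_of_ne hab with h | h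
    · have h4 := hs _ (hmi a) _ (hmi b) (by simpa using h) _ hmj
      simp only at h4
      rw [← h4, decide_eq_true_iff]
    · have h4 := hs _ (hmi b) _ (hmi a) (by simpa using h) _ hmj
      simp only at h4
      rw [← h4, decide_eq_true_iff, Finset.insert_comm]

end Pool.Agent.N442.LP
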