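import Mathlib

/-!
# Maximisers with minimal support of a symmetric cubic form on the simplex

`T g x y z = ∑ g a b c x a y b z c`. If `w` is a maximiser of `T g w w w` on the simplex with the least
number of positive coordinates and `i ≠ j` are in its support, then the second derivative in the
direction `e_i - e_j` is negative.
-/

set_option autoImplicit false

open Finset

namespace Pool.Agent.N442.LP

variable {V : Type} [Fintype V]

/-- the trilinear form -/
def T (g : V → V → V → ℝ) (x y z : V → ℝ) : ℝ := ∑ a, ∑ b, ∑ c, g a b c * x a * y b * z c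

theorem T_add (g : V → V → V → ℝ) (x x' y z : V → ℝ) (t : ℝ) :
    T g (fun a => x a + t * x' a) y z = T g x y z + t * T g x' y z := by
  unfold T
  simp only [mul_sum, ← sum_add_distrib]
  refine sum_congr rfl fun a _ => sum_congr rfl fun b _ => sum_congr rfl fun c _ => ?_
  ring

/-- symmetric tensors -/
structure Sym (g : V → V → V → ℝ) : Prop where
  s12 : ∀ a b c, g a b c = g b a c
  s23 : ∀ a b c, g a b c = g a c b

theorem T_12 {g : V → V → V → ℝ} (hg : Sym g) (x y z : V → ℝ) : T g x y z = T g y x z := by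
  unfold T
  rw [sum_comm]
  refine sum_congr rfl fun a _ => sum_congr rfl fun b _ => sum_congr rfl fun c _ => ?_
  rw [hg.s12]; ring

theorem T_23 {g : V → V → V → ℝ} (hg : Sym g) (x y z : V → ℝ) : T g x y z = T g x z y := by
  unfold T
  refine sum_congr rfl fun a _ => ?_
  rw [sum_comm]
  refine sum_congr rfl fun b _ => sum_congr rfl fun c _ => ?_
  rw [hg.s23]; ring

theorem T_cube {g : V → V → V → ℝ} (hg : Sym g) (w u : V → ℝ) (t : ℝ) :
    T g (fun a => w a + t * u a) (fun a => w a + t * u a) (fun a => w a + t * u a) =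
      T g w w w + 3 * t * T g u w w + 3 * t ^ 2 * T g u u w + t ^ 3 * T g u u u := by
  set x : V → ℝ := fun a => w a + t * u a with hx
  have a1 : T g x x x = T g w x x + t * T g u x x := T_add g w u x x t
  have a2 : T g w x x = T g w w x + t * T g u w x := by
    rw [T_12 hg w x x, hx, T_add g w u w _ t]
  have a3 : T g u x x = T g u w x + t * T g u u x := by
    rw [T_12 hg u x x, hx, T_add g w u u _ t, T_12 hg w u]
  have a4 : T g w w x = T g w w w + t * T g u w w := by
    rw [T_23 hg w w x, T_12 hg w x w, hx, T_add g w u w w t]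
  have a5 : T g u w x = T g u w w + t * T g u u w := by
    rw [T_23 hg u w x, T_12 hg u x w, hx, T_add g w u u w t, T_12 hg w u w]
  have a6 : T g u u x = T g u u w + t * T g u u u := by
    rw [T_23 hg u u x, T_12 hg u x u, hx, T_add g w u u u t, T_12 hg w u u, T_23 hg u w u]
  rw [a1, a2, a3, a4, a5, a6]
  ring

variable [DecidableEq V]

theorem T_dir {g : V → V → V → ℝ} (hg : Sym g) {i j : V} (w : V → ℝ) :
    T g (fun a => (if a = i then 1 else 0) - (if a = j then 1 else 0))
      (fun a => (if a = i then 1 else 0) - (if a = j then 1 else 0)) w =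
      ∑ c, w c * (g i i c + g j j c - 2 * g i j c) := by
  unfold T
  have h1 : ∀ a b c, g a b c * ((if a = i then (1 : ℝ) else 0) - (if a = j then 1 else 0)) *
      ((if b = i then (1 : ℝ) else 0) - (if b = j then 1 else 0)) * w c =
      (if a = i then (if b = i then g a b c * w c else 0) else 0) -
      (if a = i then (if b = j then g a b c * w c else 0) else 0) -
      (if a = j then (if b = i then g a b c * w c else 0) else 0) +
      (if a = j then (if b = j then g a b c * w c else 0) else 0) := by
    intro a b c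
    split_ifs <;> ring
  simp only [h1, sum_sub_distrib, sum_add_distrib]
  have h2 : ∀ p q : V, ∑ a, ∑ b, ∑ c, (if a = p then (if b = q then g a b c * w c else 0) else 0) =
      ∑ c, g p q c * w c := by
    intro p q
    rw [sum_eq_single p]
    · rw [sum_eq_single q]
      · simp
      · intro b _ hb
        simp [hb]
      · intro h; exact absurd (mem_univ _) h
    · intro a _ ha
      simp [ha]
    · intro h; exact absurd (mem_univ _) h
  simp only [h2]
  rw [← sum_sub_distrib, ← sum_sub_distrib, ← sum_add_distrib]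
  refine sum_congr rfl fun c _ => ?_
  rw [hg.s12 j i c]
  ring

/-- the simplex -/
def Smp (w : V → ℝ) : Prop := (∀ a, 0 ≤ w a) ∧ ∑ a, w a = 1

/-- a maximiser of the form with minimal support -/
structure MinMax (g : V → V → V → ℝ) (w : V → ℝ) : Prop where
  smp : Smp w
  max : ∀ w', Smp w' → T g w' w' w' ≤ T g w w w
  min : ∀ w', Smp w' → T g w' w' w' = T g w w w →
    (univ.filter fun a => w a ≠ 0).card ≤ (univ.filter fun a => w' a ≠ 0).card

theorem exists_minMax [Nonempty V] (g : V → V → V → ℝ) : ∃ w, MinMax g w := by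
  classical
  have hc : Continuous fun w : V → ℝ => T g w w w := by
    unfold T
    fun_prop
  obtain ⟨w0, hw0, hm⟩ := (isCompact_stdSimplex ℝ V).exists_isMaxOn
    ⟨_, single_mem_stdSimplex ℝ (Classical.arbitrary V)⟩ hc.continuousOn
  have hs : ∀ w : V → ℝ, Smp w ↔ w ∈ stdSimplex ℝ V := fun w => Iff.rfl
  have hm' : ∀ w', Smp w' → T g w' w' w' ≤ T g w0 w0 w0 := fun w' h => hm ((hs w').mp h)
  let Q : ℕ → Prop := fun s => ∃ w, Smp w ∧ T g w w w = T g w0 w0 w0 ∧
    (univ.filter fun a => w a ≠ 0).card = s
  have hQ : ∃ s, Q s := ⟨_, w0, hw0, rfl, rfl⟩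
  obtain ⟨w, h1, h2, h3⟩ := Nat.find_spec hQ
  refine ⟨w, h1, fun w' h => by rw [h2]; exact hm' w' h, fun w' h h' => ?_⟩
  rw [h3]
  exact Nat.find_min' hQ ⟨w', h, h'.trans h2, rfl⟩

theorem one_var {A B C p q : ℝ} (hp : 0 < p) (hq : 0 < q)
    (h : ∀ t, -p ≤ t → t ≤ q → 3 * t * A + 3 * t ^ 2 * B + t ^ 3 * C ≤ 0) :
    A = 0 ∧ (B < 0 ∨ (B = 0 ∧ C = 0)) := by
  have hA : A = 0 := by
    have hd : HasDerivAt (fun t : ℝ => 3 * t * A + 3 * t ^ 2 * B + t ^ 3 * C) (3 * A) 0 := by
      have e1 := ((hasDerivAt_id' (0 : ℝ)).const_mul 3).mul_const A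
      have e2 := ((hasDerivAt_pow 2 (0 : ℝ)).const_mul 3).mul_const B
      have e3 := (hasDerivAt_pow 3 (0 : ℝ)).mul_const C
      have h1 := (e1.fun_add e2).fun_add e3
      refine h1.congr_deriv ?_
      norm_num
    have hl : IsLocalMax (fun t : ℝ => 3 * t * A + 3 * t ^ 2 * B + t ^ 3 * C) 0 := by
      have h1 : Set.Ioo (-p) q ∈ nhds (0 : ℝ) := Ioo_mem_nhds (by linarith) hq
      filter_upwards [h1] with t ht
      have := h t ht.1.le ht.2.le
      simpa using this
    have := hl.hasDerivAt_eq_zero hd
    linarith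
  subst hA
  refine ⟨rfl, ?_⟩
  set r := min p q with hr
  have hr0 : 0 < r := lt_min hp hq
  have h1 := h r (by linarith [min_le_left p q]) (min_le_right p q)
  have h2 := h (-r) (by linarith [min_le_left p q]) (by linarith [min_le_right p q])
  have h3 : r ^ 2 * (3 * B + r * C) ≤ 0 := by nlinarith
  have h4 : r ^ 2 * (3 * B - r * C) ≤ 0 := by nlinarith
  have hr2 : 0 < r ^ 2 := by positivity
  have h5 : 3 * B + r * C ≤ 0 := by
    by_contra hh
    push Not at hh
    nlinarith [mul_pos hr2 hh]
  have h6 : 3 * B - r * C ≤ 0 := by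
    by_contra hh
    push Not at hh
    nlinarith [mul_pos hr2 hh]
  rcases lt_or_eq_of_le (show B ≤ 0 by linarith) with hB | hB
  · exact Or.inl hB
  · right
    refine ⟨hB, ?_⟩
    have h7 : r * C = 0 := by linarith
    rcases mul_eq_zero.mp h7 with h8 | h8
    · exact absurd h8 hr0.ne'
    · exact h8

/-- **the second order condition** -/
theorem second_order {g : V → V → V → ℝ} (hg : Sym g) {w : V → ℝ} (hw : MinMax g w) {i j : V}
    (hij : i ≠ j) (hi : w i ≠ 0) (hj : w j ≠ 0) :
    ∑ c, w c * (g i i c + g j j c - 2 * g i j c) < 0 := by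
  have hi0 : 0 < w i := lt_of_le_of_ne (hw.smp.1 i) hi.symm
  have hj0 : 0 < w j := lt_of_le_of_ne (hw.smp.1 j) hj.symm
  set u : V → ℝ := fun a => (if a = i then 1 else 0) - (if a = j then 1 else 0) with hu
  have hsum : ∑ a, u a = 0 := by simp [hu]
  have hui : u i = 1 := by simp [hu, hij]
  have huj : u j = -1 := by simp [hu, hij.symm]
  have hua : ∀ a, a ≠ i → a ≠ j → u a = 0 := by
    intro a h1 h2
    simp [hu, h1, h2]
  have hsmp : ∀ t, -w i ≤ t → t ≤ w j → Smp fun a => w a + t * u a := by
    intro t h1 h2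
    refine ⟨fun a => ?_, ?_⟩
    · change 0 ≤ w a + t * u a
      by_cases ha : a = i
      · rw [ha, hui]; linarith
      · by_cases hb : a = j
        · rw [hb, huj]; linarith
        · rw [hua a ha hb]; linarith [hw.smp.1 a]
    · rw [sum_add_distrib, ← mul_sum, hsum, hw.smp.2]; ring
  have key := one_var (A := T g u w w) (B := T g u u w) (C := T g u u u) hi0 hj0 (by
    intro t h1 h2
    have h3 := hw.max _ (hsmp t h1 h2)
    rw [T_cube hg] at h3
    linarith)
  have hd := T_dir hg (i := i) (j := j) w
  rw [← hd]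
  rcases key.2 with h | ⟨hB, hC⟩
  · exact h
  · exfalso
    have h1 : T g (fun a => w a + w j * u a) (fun a => w a + w j * u a) (fun a => w a + w j * u a) =
        T g w w w := by
      rw [T_cube hg, key.1, hB, hC]; ring
    have h2 := hw.min _ (hsmp (w j) (by linarith) (le_refl _)) h1
    have h3 : (univ.filter fun a => w a + w j * u a ≠ 0) ⊂ univ.filter fun a => w a ≠ 0 := by
      rw [ssubset_iff_of_subset]
      · refine ⟨j, by simp [hj], ?_⟩
        rw [mem_filter, huj]
        simp
      · intro a ha
        rw [mem_filter] at ha ⊢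
        refine ⟨mem_univ _, ?_⟩
        by_cases h4 : a = i
        · rw [h4]; exact hi
        · by_cases h5 : a = j
          · rw [h5]; exact hj
          · have := ha.2
            rw [hua a h4 h5] at this
            simpa using this
    exact absurd h2 (not_le.mpr (card_lt_card h3))

end Pool.Agent.N442.LP
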