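import Pool.Agent.N442.LP.Hom

/-!
# Copies of graphs in the links of realised patterns
-/

set_option autoImplicit false

open Finset
open scoped Classical

namespace Pool.Agent.N442.LP

/-- `f` is an induced copy of `F` in the link of `v` -/
def IsCopy {α : Type} (F : SimpleGraph α) {n : ℕ} (G : Finset (Finset (Fin n))) (v : Fin n)
    (f : α → Fin n) : Prop :=
  Function.Injective f ∧ (∀ a, f a ≠ v) ∧
    ∀ a b, a ≠ b → (F.Adj a b ↔ ({v, f a, f b} : Finset (Fin n)) ∈ G)

/-- the points `y a p` contain a copy -/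
def HasPos {α : Type} (F : SimpleGraph α) {k t n : ℕ} (G : Finset (Finset (Fin n)))
    (y : Fin k → Fin t → Fin n) : Prop :=
  ∃ e : Option α → Fin k × Fin t, Function.Injective e ∧
    IsCopy F G (y (e none).1 (e none).2) (fun a => y (e (some a)).1 (e (some a)).2)

theorem HasPos.comp {α : Type} {F : SimpleGraph α} {k t T n : ℕ} {G : Finset (Finset (Fin n))}
    {y : Fin k → Fin T → Fin n} {z : Fin k → Fin t → Fin T} (hz : ∀ i, Function.Injective (z i))
    (h : HasPos F G (fun i a => y i (z i a))) : HasPos F G y := by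
  obtain ⟨e, he, hc⟩ := h
  refine ⟨fun o => ((e o).1, z (e o).1 (e o).2), ?_, hc⟩
  intro a b hab
  simp only [Prod.mk.injEq] at hab
  apply he
  have h1 : (e a).1 = (e b).1 := hab.1
  have h2 := hab.2
  rw [← h1] at h2
  exact Prod.ext h1 (hz _ h2)

theorem copy_mk {α : Type} (F : SimpleGraph α) {k t n : ℕ} {G : Finset (Finset (Fin n))}
    {P : Fin k → Fin k → Fin k → Prop} {y : Fin k → Fin t → Fin n} (hR : Real G P y) (hI : Inj y)
    (i : Fin k) (p : Fin t) (e : α → Fin k × Fin t) (he : Function.Injective e)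
    (hne : ∀ a, e a ≠ (i, p)) (hF : ∀ a b, a ≠ b → (F.Adj a b ↔ P i (e a).1 (e b).1)) :
    HasPos F G y := by
  refine ⟨fun o => match o with
    | none => (i, p)
    | some a => e a, ?_, ?_, ?_, ?_⟩
  · rintro (_ | a) (_ | b) h
    · rfl
    · exact absurd h.symm (hne b)
    · exact absurd h (hne a)
    · exact congrArg some (he h)
  · intro a b h
    have := hI _ _ _ _ h
    exact he (Prod.ext this.1 this.2)
  · intro a h
    have := hI _ _ _ _ h
    exact hne a (Prod.ext this.1 this.2)
  · intro a b hab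
    rw [hF a b hab]
    refine (hR i _ _ p _ _ ?_ ?_ ?_).symm
    · exact fun h => hne a h.symm
    · intro h
      exact hab (he h)
    · exact fun h => hne b h.symm

/-- the index used for the vertices of a block -/
def ix {s : ℕ} (q : Fin s) : Fin (s + 2) := q.succ.castSucc

theorem ix_inj {s : ℕ} : Function.Injective (ix (s := s)) := fun a b h => by
  unfold ix at h
  exact Fin.succ_injective _ (Fin.castSucc_injective _ h)

theorem ix_ne {s : ℕ} (q : Fin s) : ix q ≠ 0 := by
  unfold ix
  rw [Ne, Fin.ext_iff]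
  simp

variable {k n s : ℕ} {G : Finset (Finset (Fin n))} {P : Fin k → Fin k → Fin k → Prop}
  {y : Fin k → Fin (s + 2) → Fin n}

/-- `K_s ∪ K_s` -/
def gA (s : ℕ) : SimpleGraph (Fin s ⊕ Fin s) := (⊤ : SimpleGraph (Fin s)) ⊕g (⊤ : SimpleGraph (Fin s))

/-- `K_s ∪ K_{s,s}` -/
def gB (s : ℕ) : SimpleGraph (Fin s ⊕ (Fin s ⊕ Fin s)) :=
  (⊤ : SimpleGraph (Fin s)) ⊕g completeBipartiteGraph (Fin s) (Fin s)

/-- `K_{s,s} ∪ s K_1` -/
def gC (s : ℕ) : SimpleGraph ((Fin s ⊕ Fin s) ⊕ Fin s) :=
  completeBipartiteGraph (Fin s) (Fin s) ⊕g (⊥ : SimpleGraph (Fin s))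

/-- `(s K_1 ∨ K_s) ∪ s K_1` -/
def gD (s : ℕ) : SimpleGraph ((Fin s ⊕ Fin s) ⊕ Fin s) :=
  ((⊤ : SimpleGraph (Fin s)) ⊕g (⊥ : SimpleGraph (Fin s)))ᶜ ⊕g (⊥ : SimpleGraph (Fin s))

/-- `K_2 ∪ s K_1` -/
def gE (s : ℕ) : SimpleGraph (Fin 2 ⊕ Fin s) := (⊤ : SimpleGraph (Fin 2)) ⊕g (⊥ : SimpleGraph (Fin s))

theorem posA (hP : IsPat P) (hR : Real G P y) (hI : Inj y) {i b c : Fin k} (hib : i ≠ b)
    (hic : i ≠ c) (hbc : b ≠ c) (h1 : P b b i) (h2 : P c c i) (h3 : ¬ P i b c) :
    HasPos (gA s) G y := by
  refine copy_mk (gA s) hR hI i 0 (fun x => match x with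
    | .inl q => (b, ix q)
    | .inr q => (c, ix q)) ?_ ?_ ?_
  · rintro (a | a) (d | d) h
    · simp only [Prod.mk.injEq, true_and] at h
      rw [ix_inj h]
    · exact absurd (congrArg Prod.fst h) hbc
    · exact absurd (congrArg Prod.fst h) hbc.symm
    · simp only [Prod.mk.injEq, true_and] at h
      rw [ix_inj h]
  · rintro (a | a) h
    · exact hib (congrArg Prod.fst h).symm
    · exact hic (congrArg Prod.fst h).symm
  · rintro (a | a) (d | d) h
    · have : a ≠ d := fun e => h (by rw [e])
      have h4 : P i b b := hP.s12 (hP.s23 h1)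
      simp [gA, this, h4]
    · simp [gA, h3]
    · have h4 : ¬ P i c b := fun h => h3 (hP.s23 h)
      simp [gA, h4]
    · have : a ≠ d := fun e => h (by rw [e])
      have h4 : P i c c := hP.s12 (hP.s23 h2)
      simp [gA, this, h4]

theorem posB (hP : IsPat P) (hR : Real G P y) (hI : Inj y) {a b c : Fin k} (hab : a ≠ b)
    (hac : a ≠ c) (hbc : b ≠ c) (h1 : P a a b) (h2 : ¬ P b b a) (h3 : P c c a) (h4 : ¬ P a a c)
    (h5 : ¬ P a b c) : HasPos (gB s) G y := by
  refine copy_mk (gB s) hR hI a 0 (fun x => match x with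
    | .inl q => (c, ix q)
    | .inr (.inl q) => (a, ix q)
    | .inr (.inr q) => (b, ix q)) ?_ ?_ ?_
  · rintro (p | p | p) (q | q | q) h
    · simp only [Prod.mk.injEq, true_and] at h
      rw [ix_inj h]
    · exact absurd (congrArg Prod.fst h) hac.symm
    · exact absurd (congrArg Prod.fst h) hbc.symm
    · exact absurd (congrArg Prod.fst h) hac
    · simp only [Prod.mk.injEq, true_and] at h
      rw [ix_inj h]
    · exact absurd (congrArg Prod.fst h) hab
    · exact absurd (congrArg Prod.fst h) hbc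
    · exact absurd (congrArg Prod.fst h) hab.symm
    · simp only [Prod.mk.injEq, true_and] at h
      rw [ix_inj h]
  · rintro (p | p | p) h
    · exact hac (congrArg Prod.fst h).symm
    · exact ix_ne p (congrArg Prod.snd h)
    · exact hab (congrArg Prod.fst h).symm
  · have k1 : P a c c := hP.s12 (hP.s23 h3)
    have k2 : ¬ P a c a := fun h => h4 (hP.s23 h)
    have k3 : ¬ P a c b := fun h => h5 (hP.s23 h)
    have k4 : ¬ P a a a := hP.irr a
    have k5 : P a b a := hP.s23 h1
    have k6 : ¬ P a b b := fun h => h2 (hP.s23 (hP.s12 h))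
    rintro (p | p | p) (q | q | q) h
    · have : p ≠ q := fun e => h (by rw [e])
      simp [gB, this, k1]
    · simp [gB, k2]
    · simp [gB, k3]
    · simp [gB, h4]
    · simp [gB, k4]
    · simp [gB, h1]
    · simp [gB, h5]
    · simp [gB, k5]
    · simp [gB, k6]

theorem posC (hP : IsPat P) (hR : Real G P y) (hI : Inj y) {i j x : Fin k} (hij : i ≠ j)
    (hix : i ≠ x) (hjx : j ≠ x) (h1 : ¬ P i i j) (h2 : ¬ P j j i) (h3 : P i j x) (h4 : ¬ P i i x)
    (h5 : ¬ P x x i) : HasPos (gC s) G y := by
  refine copy_mk (gC s) hR hI i 0 (fun o => match o with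
    | .inl (.inl q) => (j, ix q)
    | .inl (.inr q) => (x, ix q)
    | .inr q => (i, ix q)) ?_ ?_ ?_
  · rintro ((p | p) | p) ((q | q) | q) h
    · simp only [Prod.mk.injEq, true_and] at h
      rw [ix_inj h]
    · exact absurd (congrArg Prod.fst h) hjx
    · exact absurd (congrArg Prod.fst h) hij.symm
    · exact absurd (congrArg Prod.fst h) hjx.symm
    · simp only [Prod.mk.injEq, true_and] at h
      rw [ix_inj h]
    · exact absurd (congrArg Prod.fst h) hix.symm
    · exact absurd (congrArg Prod.fst h) hij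
    · exact absurd (congrArg Prod.fst h) hix
    · simp only [Prod.mk.injEq, true_and] at h
      rw [ix_inj h]
  · rintro ((p | p) | p) h
    · exact hij (congrArg Prod.fst h).symm
    · exact hix (congrArg Prod.fst h).symm
    · exact ix_ne p (congrArg Prod.snd h)
  · have k1 : ¬ P i j j := fun h => h2 (hP.s23 (hP.s12 h))
    have k2 : ¬ P i x x := fun h => h5 (hP.s23 (hP.s12 h))
    have k3 : P i x j := hP.s23 h3
    have k4 : ¬ P i j i := fun h => h1 (hP.s23 h)
    have k5 : ¬ P i x i := fun h => h4 (hP.s23 h)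
    have k6 : ¬ P i i i := hP.irr i
    rintro ((p | p) | p) ((q | q) | q) h
    · simp [gC, k1]
    · simp [gC, h3]
    · simp [gC, k4]
    · simp [gC, k3]
    · simp [gC, k2]
    · simp [gC, k5]
    · simp [gC, h1]
    · simp [gC, h4]
    · simp [gC, k6]

theorem posD (hP : IsPat P) (hR : Real G P y) (hI : Inj y) {i j x : Fin k} (hij : i ≠ j)
    (hix : i ≠ x) (hjx : j ≠ x) (h1 : ¬ P i i j) (h2 : ¬ P j j i) (h3 : P i j x) (h4 : ¬ P i i x)
    (h5 : P x x i) : HasPos (gD s) G y := by
  refine copy_mk (gD s) hR hI i 0 (fun o => match o with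
    | .inl (.inl q) => (j, ix q)
    | .inl (.inr q) => (x, ix q)
    | .inr q => (i, ix q)) ?_ ?_ ?_
  · rintro ((p | p) | p) ((q | q) | q) h
    · simp only [Prod.mk.injEq, true_and] at h
      rw [ix_inj h]
    · exact absurd (congrArg Prod.fst h) hjx
    · exact absurd (congrArg Prod.fst h) hij.symm
    · exact absurd (congrArg Prod.fst h) hjx.symm
    · simp only [Prod.mk.injEq, true_and] at h
      rw [ix_inj h]
    · exact absurd (congrArg Prod.fst h) hix.symm
    · exact absurd (congrArg Prod.fst h) hij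
    · exact absurd (congrArg Prod.fst h) hix
    · simp only [Prod.mk.injEq, true_and] at h
      rw [ix_inj h]
  · rintro ((p | p) | p) h
    · exact hij (congrArg Prod.fst h).symm
    · exact hix (congrArg Prod.fst h).symm
    · exact ix_ne p (congrArg Prod.snd h)
  · have k1 : ¬ P i j j := fun h => h2 (hP.s23 (hP.s12 h))
    have k2 : P i x x := hP.s12 (hP.s23 h5)
    have k3 : P i x j := hP.s23 h3
    have k4 : ¬ P i j i := fun h => h1 (hP.s23 h)
    have k5 : ¬ P i x i := fun h => h4 (hP.s23 h)
    have k6 : ¬ P i i i := hP.irr i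
    rintro ((p | p) | p) ((q | q) | q) h
    · have : p ≠ q := fun e => h (by rw [e])
      simp [gD, k1, this]
    · simp [gD, h3]
    · simp [gD, k4]
    · simp [gD, k3]
    · have : p ≠ q := fun e => h (by rw [e])
      simp [gD, k2, this]
    · simp [gD, k5]
    · simp [gD, h1]
    · simp [gD, h4]
    · simp [gD, k6]

/-- `K_{s,s}` in the link of `i` from the parts `j` and `x`, possibly `x = i` -/
theorem posK (hP : IsPat P) (hR : Real G P y) (hI : Inj y) {i j x : Fin k} (hij : i ≠ j)
    (hjx : j ≠ x) (h1 : ¬ P j j i) (h2 : ¬ P x x i) (h3 : P i j x) :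
    HasPos (completeBipartiteGraph (Fin s) (Fin s)) G y := by
  refine copy_mk _ hR hI i 0 (fun o => match o with
    | .inl q => (j, ix q)
    | .inr q => (x, ix q)) ?_ ?_ ?_
  · rintro (p | p) (q | q) h
    · simp only [Prod.mk.injEq, true_and] at h
      rw [ix_inj h]
    · exact absurd (congrArg Prod.fst h) hjx
    · exact absurd (congrArg Prod.fst h) hjx.symm
    · simp only [Prod.mk.injEq, true_and] at h
      rw [ix_inj h]
  · rintro (p | p) h
    · exact ix_ne p (congrArg Prod.snd h)
    · exact ix_ne p (congrArg Prod.snd h)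
  · have k1 : ¬ P i j j := fun h => h1 (hP.s23 (hP.s12 h))
    have k2 : ¬ P i x x := fun h => h2 (hP.s23 (hP.s12 h))
    have k3 : P i x j := hP.s23 h3
    rintro (p | p) (q | q) h
    · simp [k1]
    · simp [h3]
    · simp [k3]
    · simp [k2]

/-- `K_2 ∪ s K_1` in the link of `j`: an edge inside the part `i` -/
theorem posE (hP : IsPat P) (hR : Real G P y) (hI : Inj y) {i j : Fin k} (hij : i ≠ j)
    (h1 : P i i j) (h2 : ¬ P j j i) : HasPos (gE s) G y := by
  refine copy_mk (gE s) hR hI j 0 (fun o => match o with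
    | .inl q => (i, Fin.castLE (by omega) q)
    | .inr q => (j, ix q)) ?_ ?_ ?_
  · rintro (p | p) (q | q) h
    · simp only [Prod.mk.injEq, true_and] at h
      rw [Fin.castLE_injective _ h]
    · exact absurd (congrArg Prod.fst h) hij
    · exact absurd (congrArg Prod.fst h) hij.symm
    · simp only [Prod.mk.injEq, true_and] at h
      rw [ix_inj h]
  · rintro (p | p) h
    · exact hij (congrArg Prod.fst h)
    · exact ix_ne p (congrArg Prod.snd h)
  · have k1 : P j i i := hP.s12 (hP.s23 h1)
    have k2 : ¬ P j i j := fun h => h2 (hP.s23 h)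
    have k3 : ¬ P j j j := hP.irr j
    rintro (p | p) (q | q) h
    · have : p ≠ q := fun e => h (by rw [e])
      simp [gE, k1, this]
    · simp [gE, k2]
    · simp [gE, h2]
    · simp [gE, k3]

/-- `K_2 ∪ s K_1` in the link of `i`: an edge between the parts `j` and `x` -/
theorem posE' (hP : IsPat P) (hR : Real G P y) (hI : Inj y) {i j x : Fin k} (hij : i ≠ j)
    (hix : i ≠ x) (hjx : j ≠ x) (h1 : ¬ P i i j) (h2 : ¬ P i i x) (h3 : P i j x) :
    HasPos (gE s) G y := by
  refine copy_mk (gE s) hR hI i 0 (fun o => match o with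
    | .inl q => (if q = 0 then j else x, 0)
    | .inr q => (i, ix q)) ?_ ?_ ?_
  · rintro (p | p) (q | q) h
    · have h' := congrArg Prod.fst h
      simp only at h'
      by_cases hp : p = 0 <;> by_cases hq : q = 0
      · rw [hp, hq]
      · rw [if_pos hp, if_neg hq] at h'
        exact absurd h' hjx
      · rw [if_neg hp, if_pos hq] at h'
        exact absurd h'.symm hjx
      · have : p = q := by omega
        rw [this]
    · exact absurd (congrArg Prod.snd h).symm (ix_ne q)
    · exact absurd (congrArg Prod.snd h) (ix_ne p)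
    · simp only [Prod.mk.injEq, true_and] at h
      rw [ix_inj h]
  · rintro (p | p) h
    · have h' := congrArg Prod.fst h
      simp only at h'
      by_cases hp : p = 0
      · rw [if_pos hp] at h'
        exact hij h'.symm
      · rw [if_neg hp] at h'
        exact hix h'.symm
    · exact ix_ne p (congrArg Prod.snd h)
  · have k1 : P i x j := hP.s23 h3
    have k2 : ¬ P i j i := fun h => h1 (hP.s23 h)
    have k3 : ¬ P i x i := fun h => h2 (hP.s23 h)
    have k4 : ¬ P i i i := hP.irr i
    rintro (p | p) (q | q) h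
    · have hpq : p ≠ q := fun e => h (by rw [e])
      by_cases hp : p = 0 <;> by_cases hq : q = 0
      · exact absurd (hp.trans hq.symm) hpq
      · simp [gE, hp, hq, hpq, h3]
        omega
      · simp [gE, hp, hq, hpq, k1]
      · exact absurd (by omega) hpq
    · by_cases hp : p = 0
      · simp [gE, hp, k2]
      · simp [gE, hp, k3]
    · by_cases hq : q = 0
      · simp [gE, hq, h1]
      · simp [gE, hq, h2]
    · simp [gE, k4]

end Pool.Agent.N442.LP
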